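import Mathlib

/-!
# Renormings whose dual has no proper closed 1-norming subspace: sufficiency

helper11, problem MP_2b9b38_an.
-/

set_option autoImplicit false

open Set Filter Topology

namespace Pool.Agent.LibH11.Renorm

variable {X : Type*} [NormedAddCommGroup X] [NormedSpace ℝ X]

/-- `N` is a norm on `X` equivalent to the given one. -/
def EquivNorm (N : X → ℝ) : Prop :=
  (∀ x y : X, N (x + y) ≤ N x + N y) ∧
  (∀ (r : ℝ) (x : X), N (r • x) = |r| * N x) ∧
  (∃ c C : ℝ, 0 < c ∧ 0 < C ∧ ∀ x : X, c * ‖x‖ ≤ N x ∧ N x ≤ C * ‖x‖)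

/-- the subspace `Y` of the dual is 1-norming for `N` -/
def OneNorming (N : X → ℝ) (Y : Submodule ℝ (X →L[ℝ] ℝ)) : Prop :=
  ∀ x : X, ∀ ε : ℝ, 0 < ε → ∃ f ∈ Y, (∀ z : X, |f z| ≤ N z) ∧ N x - ε < f x

/-- the only norm-closed 1-norming subspace of the dual is the whole dual -/
def NoProperNorming (N : X → ℝ) : Prop :=
  ∀ Y : Submodule ℝ (X →L[ℝ] ℝ), IsClosed (Y : Set (X →L[ℝ] ℝ)) → OneNorming N Y → Y = ⊤

/-- A quantitative form of Smulian's test. -/
lemma norm_sub_le_of_hasFDerivAt {N : X → ℝ} {D : X →L[ℝ] ℝ} {z : X}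
    (hD : HasFDerivAt N D z) {η : ℝ} (hη : 0 < η) :
    ∃ δ > 0, ∀ g : X →L[ℝ] ℝ, (∀ w, g w ≤ N w) → N z - δ < g z → ‖g - D‖ ≤ η := by
  have h1 := hD.isLittleO.def (half_pos hη)
  rw [Metric.eventually_nhds_iff] at h1
  obtain ⟨ρ, hρ, h1⟩ := h1
  refine ⟨η / 2 * (ρ / 2), by positivity, ?_⟩
  intro g hg hgz
  have hρ2 : 0 < ρ / 2 := by positivity
  -- the basic estimate on vectors of norm `ρ/2`
  have key : ∀ u : X, ‖u‖ = ρ / 2 → (g - D) u ≤ η * ‖u‖ := by
    intro u hu
    have h2 := h1 (y := z + u) (by rw [dist_eq_norm]; simp [hu]; linarith)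
    rw [add_sub_cancel_left, Real.norm_eq_abs] at h2
    have h3 := (abs_le.mp h2).2
    have h4 := hg (z + u)
    rw [map_add] at h4
    rw [sub_apply]
    rw [hu] at h3 ⊢
    nlinarith
  have key2 : ∀ w : X, (g - D) w ≤ η * ‖w‖ := by
    intro w
    rcases eq_or_ne w 0 with rfl | hw
    · simp
    · have hw' : 0 < ‖w‖ := norm_pos_iff.mpr hw
      have ht : 0 < ρ / 2 / ‖w‖ := by positivity
      have hn : ‖(ρ / 2 / ‖w‖) • w‖ = ρ / 2 := by
        rw [norm_smul, Real.norm_eq_abs, abs_of_pos ht]; field_simp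
      have := key _ hn
      rw [map_smul, smul_eq_mul, norm_smul, Real.norm_eq_abs, abs_of_pos ht] at this
      have h5 : (ρ / 2 / ‖w‖) * (g - D) w ≤ (ρ / 2 / ‖w‖) * (η * ‖w‖) := by
        calc (ρ / 2 / ‖w‖) * (g - D) w ≤ η * ((ρ / 2 / ‖w‖) * ‖w‖) := this
          _ = _ := by ring
      exact le_of_mul_le_mul_left h5 ht
  refine ContinuousLinearMap.opNorm_le_bound _ hη.le fun w => ?_
  rw [Real.norm_eq_abs, abs_le]
  constructor
  · have := key2 (-w)
    rw [map_neg, norm_neg] at this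
    linarith
  · exact key2 w

/-- A closed 1-norming subspace contains every Frechet derivative of the norm. -/
lemma mem_of_hasFDerivAt {N : X → ℝ} {D : X →L[ℝ] ℝ} {z : X}
    (hD : HasFDerivAt N D z) {Y : Submodule ℝ (X →L[ℝ] ℝ)}
    (hY : IsClosed (Y : Set (X →L[ℝ] ℝ))) (hYn : OneNorming N Y) : D ∈ Y := by
  rw [← SetLike.mem_coe, ← hY.closure_eq, Metric.mem_closure_iff]
  intro ε hε
  obtain ⟨δ, hδ, h⟩ := norm_sub_le_of_hasFDerivAt hD (half_pos hε)
  obtain ⟨g, hgY, hg, hgz⟩ := hYn z δ hδ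
  refine ⟨g, hgY, ?_⟩
  rw [dist_comm, dist_eq_norm]
  exact lt_of_le_of_lt (h g (fun w => (le_abs_self _).trans (hg w)) hgz) (half_lt_self hε)

/-- the derivative of `x ↦ sqrt ((M f x)² + (h x)²)` -/
lemma hasFDerivAt_sqrt (M : ℝ) (f h : X →L[ℝ] ℝ) (z : X)
    (hz : 0 < M ^ 2 * f z ^ 2 + h z ^ 2) :
    HasFDerivAt (fun x => Real.sqrt (M ^ 2 * f x ^ 2 + h x ^ 2))
      ((1 / Real.sqrt (M ^ 2 * f z ^ 2 + h z ^ 2)) • ((M ^ 2 * f z) • f + h z • h)) z := by
  have h1 : HasFDerivAt (fun x => M ^ 2 * f x ^ 2 + h x ^ 2)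
      ((2 : ℝ) • ((M ^ 2 * f z) • f + h z • h)) z := by
    have hf := (f.hasFDerivAt (x := z)).pow 2
    have hh := (h.hasFDerivAt (x := z)).pow 2
    have := (hf.const_mul (M ^ 2)).add hh
    refine this.congr_fderiv ?_
    ext w
    simp
    ring
  have h2 := h1.sqrt hz.ne'
  refine h2.congr_fderiv ?_
  rw [smul_smul]
  congr 1
  field_simp

/-- If a closed subspace contains the derivatives of `sqrt ((M f)² + h²)` near a point where
`f ≠ 0` then it contains `f` and `h`. -/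
lemma mem_both {M : ℝ} (hM : M ≠ 0) (f h : X →L[ℝ] ℝ) (x₀ : X) (hf : f x₀ = 1)
    (Y : Submodule ℝ (X →L[ℝ] ℝ))
    (hY : ∀ᶠ z in 𝓝 x₀, (M ^ 2 * f z) • f + h z • h ∈ Y) : f ∈ Y ∧ h ∈ Y := by
  have h0 : (M ^ 2) • f + h x₀ • h ∈ Y := by
    have := hY.self_of_nhds
    simpa [hf] using this
  by_cases hc : ∀ w, h w = h x₀ * f w
  · have hh : h = h x₀ • f := by
      ext w; simpa using hc w
    have h1 : (M ^ 2 + h x₀ ^ 2) • f ∈ Y := by
      have : (M ^ 2 + h x₀ ^ 2) • f = (M ^ 2) • f + h x₀ • h := by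
        rw [add_smul]
        congr 1
        conv_rhs => rw [hh]
        ext w
        simp [hf]
        ring
      rw [this]; exact h0
    have hpos : M ^ 2 + h x₀ ^ 2 ≠ 0 := by positivity
    have hfY : f ∈ Y := by
      have := Y.smul_mem (M ^ 2 + h x₀ ^ 2)⁻¹ h1
      rwa [smul_smul, inv_mul_cancel₀ hpos, one_smul] at this
    exact ⟨hfY, by rw [hh]; exact Y.smul_mem _ hfY⟩
  · push Not at hc
    obtain ⟨w, hw⟩ := hc
    set v : X := w - f w • x₀ with hv
    have hfv : f v = 0 := by simp [hv, hf]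
    have hhv : h v ≠ 0 := by
      simp only [hv, map_sub, map_smul, smul_eq_mul]
      intro h'
      apply hw
      linarith [mul_comm (f w) (h x₀)]
    -- a small step in the direction `v`
    have hcont : Tendsto (fun s : ℝ => x₀ + s • v) (𝓝 0) (𝓝 x₀) := by
      have : Continuous fun s : ℝ => x₀ + s • v := by fun_prop
      simpa using this.tendsto 0
    have hev := hcont.eventually hY
    have : ∃ s : ℝ, s ≠ 0 ∧ (M ^ 2 * f (x₀ + s • v)) • f + h (x₀ + s • v) • h ∈ Y := by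
      rw [Metric.eventually_nhds_iff] at hev
      obtain ⟨ε, hε, hev⟩ := hev
      exact ⟨ε / 2, by positivity, hev (by simp [abs_of_pos hε]; linarith)⟩
    obtain ⟨s, hs, hsY⟩ := this
    have h1 : (s * h v) • h ∈ Y := by
      have : (s * h v) • h = ((M ^ 2 * f (x₀ + s • v)) • f + h (x₀ + s • v) • h)
          - ((M ^ 2) • f + h x₀ • h) := by
        simp only [map_add, map_smul, hfv, hf, smul_eq_mul, mul_zero, add_zero, mul_one]
        rw [add_smul]
        abel
      rw [this]; exact Y.sub_mem hsY h0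
    have hhY : h ∈ Y := by
      have := Y.smul_mem (s * h v)⁻¹ h1
      rwa [smul_smul, inv_mul_cancel₀ (mul_ne_zero hs hhv), one_smul] at this
    refine ⟨?_, hhY⟩
    have h2 : (M ^ 2) • f ∈ Y := by
      have := Y.sub_mem h0 (Y.smul_mem (h x₀) hhY)
      simpa using this
    have := Y.smul_mem (M ^ 2)⁻¹ h2
    rwa [smul_smul, inv_mul_cancel₀ (pow_ne_zero 2 hM), one_smul] at this

/-- the seminorms used in the renorming -/
noncomputable def pp (M : ℝ) (f h : X →L[ℝ] ℝ) (z : X) : ℝ :=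
  Real.sqrt (M ^ 2 * f z ^ 2 + h z ^ 2)

lemma pp_eq (M : ℝ) (f h : X →L[ℝ] ℝ) (z : X) :
    pp M f h z = ‖((M * f z : ℝ) : ℂ) + ((h z : ℝ) : ℂ) * Complex.I‖ := by
  rw [Complex.norm_add_mul_I, pp, mul_pow]

lemma pp_nonneg (M : ℝ) (f h : X →L[ℝ] ℝ) (z : X) : 0 ≤ pp M f h z := Real.sqrt_nonneg _

lemma pp_add (M : ℝ) (f h : X →L[ℝ] ℝ) (z w : X) :
    pp M f h (z + w) ≤ pp M f h z + pp M f h w := by
  simp only [pp_eq]
  have : ((M * f (z + w) : ℝ) : ℂ) + ((h (z + w) : ℝ) : ℂ) * Complex.I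
      = (((M * f z : ℝ) : ℂ) + ((h z : ℝ) : ℂ) * Complex.I)
        + (((M * f w : ℝ) : ℂ) + ((h w : ℝ) : ℂ) * Complex.I) := by
    simp only [map_add]; push_cast; ring
  rw [this]; exact norm_add_le _ _

lemma pp_smul (M : ℝ) (f h : X →L[ℝ] ℝ) (r : ℝ) (z : X) :
    pp M f h (r • z) = |r| * pp M f h z := by
  simp only [pp, map_smul, smul_eq_mul]
  have : M ^ 2 * (r * f z) ^ 2 + (r * h z) ^ 2 = r ^ 2 * (M ^ 2 * f z ^ 2 + h z ^ 2) := by ring
  rw [this, Real.sqrt_mul (sq_nonneg r), Real.sqrt_sq_eq_abs]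

lemma pp_le {M : ℝ} (hM : 0 ≤ M) (f h : X →L[ℝ] ℝ) (z : X) :
    pp M f h z ≤ M * |f z| + |h z| := by
  rw [pp]
  apply Real.sqrt_le_iff.mpr
  constructor
  · positivity
  · have : M ^ 2 * f z ^ 2 + h z ^ 2 = (M * |f z|) ^ 2 + |h z| ^ 2 := by
      rw [mul_pow, sq_abs, sq_abs]
    rw [this]
    nlinarith [mul_nonneg (mul_nonneg hM (abs_nonneg (f z))) (abs_nonneg (h z))]

lemma pp_ge {M : ℝ} (hM : 0 ≤ M) (f h : X →L[ℝ] ℝ) (z : X) : M * |f z| ≤ pp M f h z := by
  rw [pp]
  apply Real.le_sqrt_of_sq_le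
  rw [mul_pow, sq_abs]
  nlinarith [sq_nonneg (h z)]

lemma pp_le_norm {M C : ℝ} (hM : 0 ≤ M) {f h : X →L[ℝ] ℝ} (hf : ‖f‖ ≤ C) (hh : ‖h‖ ≤ C)
    (z : X) : pp M f h z ≤ (M * C + C) * ‖z‖ := by
  refine (pp_le hM f h z).trans ?_
  have h1 : |f z| ≤ C * ‖z‖ := by
    have := f.le_opNorm z
    rw [Real.norm_eq_abs] at this
    exact this.trans (mul_le_mul_of_nonneg_right hf (norm_nonneg z))
  have h2 : |h z| ≤ C * ‖z‖ := by
    have := h.le_opNorm z
    rw [Real.norm_eq_abs] at this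
    exact this.trans (mul_le_mul_of_nonneg_right hh (norm_nonneg z))
  nlinarith

lemma pp_lip {M C : ℝ} (hM : 0 ≤ M) {f h : X →L[ℝ] ℝ} (hf : ‖f‖ ≤ C) (hh : ‖h‖ ≤ C)
    (z w : X) : pp M f h z ≤ pp M f h w + (M * C + C) * ‖z - w‖ := by
  have h1 := pp_add M f h w (z - w)
  rw [add_sub_cancel] at h1
  exact h1.trans (by linarith [pp_le_norm hM hf hh (z - w)])

/-- **Sufficiency.** A bounded uniformly dominated system which is as large as the dual
gives an equivalent norm for which the dual has no proper closed 1-norming subspace. -/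
theorem exists_norm_of_dominated {ι : Type*} [Nonempty ι] (x : ι → X) (f h : ι → X →L[ℝ] ℝ)
    (C δ : ℝ) (hδ : 0 < δ) (hx : ∀ i, ‖x i‖ ≤ C) (hf : ∀ i, ‖f i‖ ≤ C)
    (hh : ∀ i, ‖h i‖ ≤ C) (hfx : ∀ i, f i (x i) = 1)
    (hdom : ∀ i j, i ≠ j → |f j (x i)| ≤ 1 - δ)
    (hspan : (Submodule.span ℝ (range h)).topologicalClosure = ⊤) :
    ∃ N : X → ℝ, EquivNorm N ∧ NoProperNorming N := by
  have hC : 0 ≤ C := (norm_nonneg _).trans (hx (Classical.arbitrary ι))
  set M : ℝ := (C ^ 2 + 2) / δ + C + 2 with hMdef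
  have hM : 0 < M := by positivity
  have hMδ : C ^ 2 + 2 ≤ M * δ := by
    have : (C ^ 2 + 2) / δ * δ = C ^ 2 + 2 := by field_simp
    rw [hMdef]
    nlinarith
  have hMC : C + 2 ≤ M := by
    have : 0 ≤ (C ^ 2 + 2) / δ := by positivity
    linarith
  set L : ℝ := M * C + C with hL
  have hL0 : 0 ≤ L := by positivity
  have hbdd : ∀ z, BddAbove (range fun i => pp M (f i) (h i) z) := fun z =>
    ⟨L * ‖z‖, by rintro _ ⟨i, rfl⟩; exact pp_le_norm hM.le (hf i) (hh i) z⟩
  set N : X → ℝ := fun z => max ‖z‖ (⨆ i, pp M (f i) (h i) z) with hN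
  refine ⟨N, ⟨?_, ?_, 1, max 1 L, one_pos, by positivity, ?_⟩, ?_⟩
  · intro z w
    refine max_le ?_ ?_
    · exact (norm_add_le z w).trans (add_le_add (le_max_left _ _) (le_max_left _ _))
    · refine ciSup_le fun i => (pp_add M (f i) (h i) z w).trans ?_
      exact add_le_add ((le_ciSup (hbdd z) i).trans (le_max_right _ _))
        ((le_ciSup (hbdd w) i).trans (le_max_right _ _))
  · intro r z
    simp only [hN, norm_smul, Real.norm_eq_abs, pp_smul]
    rw [← Real.mul_iSup_of_nonneg (abs_nonneg r), mul_max_of_nonneg _ _ (abs_nonneg r)]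
  · intro z
    refine ⟨by rw [one_mul]; exact le_max_left _ _, max_le ?_ (ciSup_le fun i => ?_)⟩
    · exact le_mul_of_one_le_left (norm_nonneg z) (le_max_left _ _)
    · exact (pp_le_norm hM.le (hf i) (hh i) z).trans
        (mul_le_mul_of_nonneg_right (le_max_right _ _) (norm_nonneg z))
  · intro Y hY hYn
    -- near `x i` the norm is `pp M (f i) (h i)`
    set r : ℝ := 1 / (L + 1) with hr
    have hr0 : 0 < r := by positivity
    have hLr : L * r ≤ 1 := by
      rw [hr, mul_one_div, div_le_one (by positivity)]; linarith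
    have hr1 : r ≤ 1 := by
      rw [hr, div_le_one (by positivity)]; linarith
    have hlow : ∀ i z, dist z (x i) < r → M - 1 ≤ pp M (f i) (h i) z := by
      intro i z hz
      rw [dist_eq_norm] at hz
      have h1 := pp_lip hM.le (hf i) (hh i) (x i) z
      have h2 := pp_ge hM.le (f i) (h i) (x i)
      rw [hfx i, abs_one, mul_one] at h2
      have h3 : L * ‖x i - z‖ ≤ 1 := by
        rw [norm_sub_rev]
        exact (mul_le_mul_of_nonneg_left hz.le hL0).trans hLr
      linarith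
    have hup : ∀ i j z, i ≠ j → dist z (x i) < r → pp M (f j) (h j) z ≤ M - 1 := by
      intro i j z hij hz
      rw [dist_eq_norm] at hz
      have h1 := pp_lip hM.le (hf j) (hh j) z (x i)
      have h2 := pp_le hM.le (f j) (h j) (x i)
      have h3 : L * ‖z - x i‖ ≤ 1 := (mul_le_mul_of_nonneg_left hz.le hL0).trans hLr
      have h4 : |h j (x i)| ≤ C * C := by
        have := (h j).le_opNorm (x i)
        rw [Real.norm_eq_abs] at this
        exact this.trans (mul_le_mul (hh j) (hx i) (norm_nonneg _) hC)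
      have h5 : M * |f j (x i)| ≤ M * (1 - δ) :=
        mul_le_mul_of_nonneg_left (hdom i j hij) hM.le
      nlinarith
    have hNeq : ∀ i z, dist z (x i) < r → N z = pp M (f i) (h i) z := by
      intro i z hz
      have h1 := hlow i z hz
      have h2 : (⨆ j, pp M (f j) (h j) z) = pp M (f i) (h i) z := by
        refine le_antisymm (ciSup_le fun j => ?_) (le_ciSup (hbdd z) i)
        by_cases hij : i = j
        · rw [hij]
        · exact (hup i j z hij hz).trans h1
      have h3 : ‖z‖ ≤ pp M (f i) (h i) z := by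
        have h4 : ‖z‖ ≤ ‖z - x i‖ + ‖x i‖ := by
          simpa using norm_add_le (z - x i) (x i)
        rw [dist_eq_norm] at hz
        linarith [hx i]
      simp only [hN, h2]
      exact max_eq_right h3
    have hmem : ∀ i, f i ∈ Y ∧ h i ∈ Y := by
      intro i
      refine mem_both hM.ne' (f i) (h i) (x i) (hfx i) Y ?_
      rw [Metric.eventually_nhds_iff]
      refine ⟨r, hr0, fun z hz => ?_⟩
      have hpos : 0 < pp M (f i) (h i) z := by
        have := hlow i z hz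
        linarith
      have hpos' : 0 < M ^ 2 * f i z ^ 2 + h i z ^ 2 := Real.sqrt_pos.mp hpos
      have hev : N =ᶠ[𝓝 z] fun y => Real.sqrt (M ^ 2 * f i y ^ 2 + h i y ^ 2) := by
        have : Metric.ball (x i) r ∈ 𝓝 z := Metric.isOpen_ball.mem_nhds hz
        filter_upwards [this] with y hy
        exact hNeq i y hy
      have hder := (hasFDerivAt_sqrt M (f i) (h i) z hpos').congr_of_eventuallyEq hev
      have hin := mem_of_hasFDerivAt hder hY hYn
      have := Y.smul_mem (pp M (f i) (h i) z) hin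
      rw [smul_smul] at this
      have hone : pp M (f i) (h i) z * (1 / Real.sqrt (M ^ 2 * f i z ^ 2 + h i z ^ 2)) = 1 := by
        rw [mul_one_div]; exact div_self hpos.ne'
      rwa [hone, one_smul] at this
    rw [eq_top_iff, ← hspan]
    refine Submodule.topologicalClosure_minimal _ ?_ hY
    rw [Submodule.span_le]
    rintro _ ⟨i, rfl⟩
    exact (hmem i).2

end Pool.Agent.LibH11.Renorm
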