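import Pool.Agent.LibH11.Renorm.Dens
import Pool.Agent.LibH11.Renorm.Suff

/-!
# Biorthogonal systems from total sets, and the renorming

helper11, problem MP_2b9b38_an.
-/

set_option autoImplicit false

open Set Filter Topology TopologicalSpace Cardinal

universe u

namespace Pool.Agent.LibH11.Renorm

variable {X : Type u} [NormedAddCommGroup X] [NormedSpace ℝ X]

/-- the span of a set has a dense set which is not larger, up to `ℵ₀` -/
lemma exists_dense_span (Z : Set X) :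
    ∃ D : Set X, #D ≤ max #Z ℵ₀ ∧ (Submodule.span ℝ Z : Set X) ⊆ closure D := by
  set F : List (Z × ℚ) → X := fun l => (l.map fun t => (t.2 : ℝ) • (t.1 : X)).sum with hF
  have hadd : ∀ x ∈ range F, ∀ y ∈ range F, x + y ∈ range F := by
    rintro _ ⟨l, rfl⟩ _ ⟨l', rfl⟩
    exact ⟨l ++ l', by simp [hF]⟩
  have hsmul : ∀ a ∈ range ((↑) : ℚ → ℝ), ∀ x ∈ range F, a • x ∈ range F := by
    rintro _ ⟨q, rfl⟩ _ ⟨l, rfl⟩
    refine ⟨l.map fun t => (t.1, q * t.2), ?_⟩
    simp only [hF, List.map_map]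
    induction l with
    | nil => simp
    | cons t l ih =>
      simp only [List.map_cons, List.sum_cons, smul_add, ih, Function.comp]
      rw [smul_smul]
      push_cast
      rfl
  refine ⟨range F, ?_, ?_⟩
  · refine mk_range_le.trans ((mk_list_le_max _).trans ?_)
    refine max_le (le_max_right _ _) ?_
    rw [mk_prod, mk_eq_aleph0 ℚ, lift_aleph0, lift_uzero]
    exact mul_le_of_le (le_max_right _ _) (le_max_left _ _) (le_max_right _ _)
  · intro z hz
    refine Submodule.span_induction (p := fun z _ => z ∈ closure (range F)) ?_ ?_ ?_ ?_ hz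
    · intro x hx
      refine subset_closure ⟨[(⟨x, hx⟩, 1)], ?_⟩
      simp [hF]
    · exact subset_closure ⟨[], by simp [hF]⟩
    · intro x y _ _ hx hy
      exact map_mem_closure₂ continuous_add hx hy hadd
    · intro a x _ hx
      have ha : a ∈ closure (range ((↑) : ℚ → ℝ)) := by
        rw [Rat.isDenseEmbedding_coe_real.dense.closure_range]
        exact mem_univ a
      exact map_mem_closure₂ continuous_smul ha hx hsmul

/-- a functional vanishing on a subspace and equal to one at a point of distance `≥ 1/2` -/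
lemma exists_sep_functional {S : Submodule ℝ X} {x : X} (h : ∀ z ∈ S, 1 / 2 ≤ ‖x - z‖) :
    ∃ f : X →L[ℝ] ℝ, ‖f‖ ≤ 2 ∧ f x = 1 ∧ ∀ z ∈ S, f z = 0 := by
  have hq : 1 / 2 ≤ ‖(Submodule.Quotient.mk x : X ⧸ S)‖ := by
    by_contra hlt
    push Not at hlt
    obtain ⟨m, hm, hmn⟩ := Submodule.Quotient.norm_mk_lt (S := S)
      (Submodule.Quotient.mk x : X ⧸ S) (sub_pos.mpr hlt)
    have h1 : x - m ∈ S := by
      rw [← Submodule.Quotient.eq, hm]
    have h2 := h _ h1
    rw [sub_sub_cancel] at h2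
    linarith
  have hq0 : 0 < ‖(Submodule.Quotient.mk x : X ⧸ S)‖ := by linarith
  obtain ⟨g, hg1, hgx⟩ := exists_dual_vector ℝ (Submodule.Quotient.mk x : X ⧸ S) hq0.ne'
  refine ⟨‖(Submodule.Quotient.mk x : X ⧸ S)‖⁻¹ • g.comp S.mkQL, ?_, ?_, ?_⟩
  · refine ContinuousLinearMap.opNorm_le_bound _ (by norm_num) fun y => ?_
    have h1 : ‖g (Submodule.Quotient.mk y : X ⧸ S)‖ ≤ ‖y‖ := by
      refine (g.le_opNorm _).trans ?_
      rw [hg1, one_mul]
      exact Submodule.Quotient.norm_mk_le S y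
    have h2 : ‖(Submodule.Quotient.mk x : X ⧸ S)‖⁻¹ ≤ 2 := by
      rw [inv_le_comm₀ hq0 (by norm_num)]
      linarith
    calc ‖(‖(Submodule.Quotient.mk x : X ⧸ S)‖⁻¹ • g.comp S.mkQL) y‖
        = ‖(Submodule.Quotient.mk x : X ⧸ S)‖⁻¹ * ‖g (Submodule.Quotient.mk y : X ⧸ S)‖ := by
          rw [smul_apply, norm_smul, norm_inv, norm_norm]
          rfl
      _ ≤ 2 * ‖y‖ := mul_le_mul h2 h1 (norm_nonneg _) (by norm_num)
  · have : g (S.mkQL x) = ‖(Submodule.Quotient.mk x : X ⧸ S)‖ := hgx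
    rw [smul_apply, ContinuousLinearMap.comp_apply, this, smul_eq_mul]
    exact inv_mul_cancel₀ hq0.ne'
  · intro z hz
    have : S.mkQL z = 0 := (Submodule.Quotient.mk_eq_zero S).mpr hz
    rw [smul_apply, ContinuousLinearMap.comp_apply, this, map_zero, smul_zero]

/-- A set of functionals is total if it separates points. -/
def Total (F : Set (X →L[ℝ] ℝ)) : Prop := ∀ x : X, (∀ f ∈ F, f x = 0) → x = 0

/-- If no small set of functionals is total there are large bounded biorthogonal systems. -/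
theorem exists_biorthogonal
    (hT : ∀ F : Set (X →L[ℝ] ℝ), Total F → ∃ D : Set X, Dense D ∧ #D ≤ #F)
    (hns : ¬ SeparableSpace X) :
    ∃ S : Set (X × (X →L[ℝ] ℝ)),
      (∀ p ∈ S, ‖p.1‖ = 1 ∧ ‖p.2‖ ≤ 2 ∧ p.2 p.1 = 1) ∧
      (∀ p ∈ S, ∀ q ∈ S, p ≠ q → p.2 q.1 = 0) ∧
      ∃ D : Set X, Dense D ∧ #D ≤ #S := by
  set P : Set (Set (X × (X →L[ℝ] ℝ))) := {S |
    (∀ p ∈ S, ‖p.1‖ = 1 ∧ ‖p.2‖ ≤ 2 ∧ p.2 p.1 = 1) ∧
      (∀ p ∈ S, ∀ q ∈ S, p ≠ q → p.2 q.1 = 0)} with hP
  obtain ⟨S, hS⟩ : ∃ S, Maximal (· ∈ P) S := by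
    refine zorn_subset P ?_
    intro c hc hchain
    refine ⟨⋃₀ c, ⟨?_, ?_⟩, fun s hs => subset_sUnion_of_mem hs⟩
    · rintro p ⟨s, hs, hps⟩
      exact (hc hs).1 p hps
    · rintro p ⟨s, hs, hps⟩ q ⟨t, ht, hqt⟩ hpq
      rcases hchain.total hs ht with h | h
      · exact (hc ht).2 p (h hps) q hqt hpq
      · exact (hc hs).2 p hps q (h hqt) hpq
  refine ⟨S, hS.prop.1, hS.prop.2, ?_⟩
  by_contra hno
  push Not at hno
  obtain ⟨Z, hZ1, hZ2⟩ := exists_dense_span (Prod.fst '' S)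
  have hg : ∀ d : X, ∃ g : X →L[ℝ] ℝ, ‖g‖ ≤ 1 ∧ g d = ‖d‖ := fun d => exists_dual_vector'' ℝ d
  choose g hg1 hg2 using hg
  set F : Set (X →L[ℝ] ℝ) := (Prod.snd '' S) ∪ g '' Z with hF
  have hFcard : #F ≤ max #S ℵ₀ := by
    refine (mk_union_le _ _).trans (add_le_of_le (le_max_right _ _) ?_ ?_)
    · exact mk_image_le.trans (le_max_left _ _)
    · refine mk_image_le.trans (hZ1.trans ?_)
      exact max_le_max mk_image_le le_rfl
  have hnotT : ¬ Total F := by
    intro hFT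
    obtain ⟨D, hD, hDF⟩ := hT F hFT
    rcases le_total ℵ₀ #S with h | h
    · rw [max_eq_left h] at hFcard
      exact (hno D hD).not_ge (hDF.trans hFcard)
    · rw [max_eq_right h] at hFcard
      have : D.Countable := by
        rw [← le_aleph0_iff_set_countable]
        exact hDF.trans hFcard
      exact hns ⟨D, this, hD⟩
  rw [Total] at hnotT
  push Not at hnotT
  obtain ⟨x, hx0, hx⟩ := hnotT
  -- normalise
  set y : X := ‖x‖⁻¹ • x with hy
  have hxn : 0 < ‖x‖ := norm_pos_iff.mpr hx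
  have hy1 : ‖y‖ = 1 := by
    rw [hy, norm_smul, norm_inv, norm_norm]
    exact inv_mul_cancel₀ hxn.ne'
  have hyF : ∀ f ∈ F, f y = 0 := by
    intro f hf
    rw [hy, map_smul, hx0 f hf, smul_zero]
  have hdist : ∀ z ∈ Submodule.span ℝ (Prod.fst '' S), 1 / 2 ≤ ‖y - z‖ := by
    intro z hz
    refine le_of_forall_pos_le_add fun η hη => ?_
    obtain ⟨d, hd, hzd⟩ := Metric.mem_closure_iff.mp (hZ2 hz) η hη
    rw [dist_eq_norm] at hzd
    have h1 : g d y = 0 := hyF _ (Or.inr ⟨d, hd, rfl⟩)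
    have h2 : ‖d‖ ≤ ‖y - d‖ := by
      have h3 := (g d).le_opNorm (y - d)
      rw [map_sub, h1, hg2, zero_sub, norm_neg, norm_norm] at h3
      exact h3.trans (mul_le_of_le_one_left (norm_nonneg _) (hg1 d))
    have h3 : ‖y‖ ≤ ‖y - d‖ + ‖d‖ := by simpa using norm_add_le (y - d) d
    have h4 : ‖y - d‖ ≤ ‖y - z‖ + ‖z - d‖ := by
      simpa using norm_add_le (y - z) (z - d)
    linarith
  obtain ⟨f, hf1, hf2, hf3⟩ := exists_sep_functional hdist
  have hmem : insert (y, f) S ∈ P := by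
    refine ⟨?_, ?_⟩
    · rintro p (rfl | hp)
      · exact ⟨hy1, hf1, hf2⟩
      · exact hS.prop.1 p hp
    · rintro p (rfl | hp) q (rfl | hq) hpq
      · exact absurd rfl hpq
      · exact hf3 _ (Submodule.subset_span ⟨q, hq, rfl⟩)
      · exact hyF _ (Or.inl ⟨p, hp, rfl⟩)
      · exact hS.prop.2 p hp q hq hpq
  have hin : (y, f) ∈ S := hS.le_of_ge hmem (subset_insert _ _) (mem_insert _ _)
  have h1 : f y = 0 := hyF f (Or.inl ⟨(y, f), hin, rfl⟩)
  rw [hf2] at h1
  exact one_ne_zero h1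

/-- **Renorming from a bounded dominated system of the size of the space.** -/
theorem exists_norm_of_system (hX : IsAsplund X) {D : Set X} (hD : Dense D)
    (hinf : D.Infinite) {ι : Type u} (hι : #D ≤ #ι) (x : ι → X) (f : ι → X →L[ℝ] ℝ)
    (C δ : ℝ) (hδ : 0 < δ) (hx : ∀ i, ‖x i‖ ≤ C) (hf : ∀ i, ‖f i‖ ≤ C)
    (hfx : ∀ i, f i (x i) = 1) (hdom : ∀ i j, i ≠ j → |f j (x i)| ≤ 1 - δ) :
    ∃ N : X → ℝ, EquivNorm N ∧ NoProperNorming N := by
  classical
  obtain ⟨E, hE, hED⟩ := exists_dense_dual hX hD hinf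
  obtain ⟨e₀, he₀⟩ : E.Nonempty := hE.nonempty
  have hDne : Nonempty D := hinf.nonempty.to_subtype
  have hιne : Nonempty ι := by
    rw [← mk_ne_zero_iff]
    intro h
    rw [h] at hι
    exact (mk_ne_zero D) (nonpos_iff_eq_zero.mp hι)
  obtain ⟨emb⟩ := (Cardinal.le_def _ _).mp (hED.trans hι)
  -- a surjection of `ι` onto `E`
  let e : ι → (X →L[ℝ] ℝ) := fun i => if h : ∃ k : E, emb k = i then (h.choose : X →L[ℝ] ℝ) else e₀
  have hesurj : ∀ k ∈ E, ∃ i, e i = k := by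
    intro k hk
    refine ⟨emb ⟨k, hk⟩, ?_⟩
    have h : ∃ k' : E, emb k' = emb ⟨k, hk⟩ := ⟨_, rfl⟩
    have h2 : h.choose = ⟨k, hk⟩ := emb.injective h.choose_spec
    simp only [e, dif_pos h, h2]
  refine exists_norm_of_dominated x f (fun i => (1 + ‖e i‖)⁻¹ • e i) (max C 1) δ hδ
    (fun i => (hx i).trans (le_max_left _ _)) (fun i => (hf i).trans (le_max_left _ _))
    (fun i => ?_) hfx hdom ?_
  · refine le_trans ?_ (le_max_right _ _)
    rw [norm_smul, norm_inv, Real.norm_of_nonneg (by positivity)]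
    rw [inv_mul_le_one₀ (by positivity)]
    linarith
  · rw [eq_top_iff]
    have h1 : E ⊆ (Submodule.span ℝ (range fun i => (1 + ‖e i‖)⁻¹ • e i) : Set (X →L[ℝ] ℝ)) := by
      intro k hk
      obtain ⟨i, rfl⟩ := hesurj k hk
      have h2 : (1 + ‖e i‖)⁻¹ • e i ∈ Submodule.span ℝ (range fun i => (1 + ‖e i‖)⁻¹ • e i) :=
        Submodule.subset_span ⟨i, rfl⟩
      have h3 := Submodule.smul_mem _ (1 + ‖e i‖) h2
      rwa [smul_smul, mul_inv_cancel₀ (by positivity), one_smul] at h3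
    intro k _
    have h2 : k ∈ closure E := by rw [hE.closure_eq]; exact mem_univ k
    exact closure_mono h1 h2

end Pool.Agent.LibH11.Renorm
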