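import Pool.Agent.LibH11.Renorm.Frag

/-!
# The density of the dual of an Asplund space

helper11, problem MP_2b9b38_an.
-/

set_option autoImplicit false

open Set Filter Topology TopologicalSpace Cardinal

universe u

namespace Pool.Agent.LibH11.Renorm

lemma mk_iUnion_le_of {ι α : Type u} {κ : Cardinal.{u}} (hκ : ℵ₀ ≤ κ) (hι : #ι ≤ κ)
    (E : ι → Set α) (h : ∀ i, #(E i) ≤ κ) : #(⋃ i, E i) ≤ κ := by
  refine mk_iUnion_le_sum_mk.trans ((sum_le_sum _ (fun _ => κ) h).trans ?_)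
  rw [sum_const']
  exact mul_le_of_le hκ hι le_rfl

lemma mk_iUnion_le_of_countable {ι : Type} [Countable ι] {α : Type u} {κ : Cardinal.{u}}
    (hκ : ℵ₀ ≤ κ) (E : ι → Set α) (h : ∀ i, #(E i) ≤ κ) : #(⋃ i, E i) ≤ κ := by
  have h1 : (⋃ i, E i) = ⋃ i : ULift.{u} ι, E i.down := by
    ext x; simp
  rw [h1]
  refine mk_iUnion_le_of hκ ?_ _ fun i => h _
  exact (mk_le_aleph0).trans hκ

variable {X : Type u} [NormedAddCommGroup X] [NormedSpace ℝ X]

/-- the basic weak-star open set given by finitely many rational conditions -/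
def bas (D : Set X) (s : Finset (D × ℚ × ℚ)) : Set (WeakDual ℝ X) :=
  {g | ∀ t ∈ s, (t.2.1 : ℝ) < g (t.1 : X) ∧ g (t.1 : X) < (t.2.2 : ℝ)}

lemma exists_bas {D : Set X} (hD : Dense D) {W : Set (WeakDual ℝ X)} (hW : IsOpen W)
    {g : WeakDual ℝ X} (hg : g ∈ W) {r : ℝ} (hr : 0 ≤ r)
    (hgr : ‖WeakDual.toStrongDual g‖ ≤ r) :
    ∃ s : Finset (D × ℚ × ℚ), g ∈ bas D s ∧
      ∀ k ∈ bas D s, ‖WeakDual.toStrongDual k‖ ≤ r → k ∈ W := by
  classical
  obtain ⟨V, hV, hVW⟩ := isOpen_induced_iff.mp hW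
  have hgV : (fun y => g y) ∈ V := by
    have : g ∈ (fun (x : WeakDual ℝ X) y => x y) ⁻¹' V := by
      have h := hVW.symm ▸ hg
      exact h
    exact this
  obtain ⟨I, u, hu, hIV⟩ := isOpen_pi_iff.mp hV _ hgV
  have hδ : ∀ x ∈ I, ∃ t : D × ℚ × ℚ, ((t.2.1 : ℝ) < g (t.1 : X) ∧ g (t.1 : X) < (t.2.2 : ℝ)) ∧
      ∀ k : WeakDual ℝ X, ‖WeakDual.toStrongDual k‖ ≤ r →
        ((t.2.1 : ℝ) < k (t.1 : X) ∧ k (t.1 : X) < (t.2.2 : ℝ)) → k x ∈ u x := by
    intro x hx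
    obtain ⟨huo, hgx⟩ := hu x hx
    obtain ⟨δ, hδ, hball⟩ := Metric.isOpen_iff.mp huo _ hgx
    obtain ⟨d, hdD, hd⟩ := hD.exists_dist_lt x (ε := δ / (4 * (r + 1))) (by positivity)
    obtain ⟨q, hq1, hq2⟩ := exists_rat_btwn (show g d - δ / 4 < g d by linarith)
    obtain ⟨q', hq1', hq2'⟩ := exists_rat_btwn (show g d < g d + δ / 4 by linarith)
    refine ⟨(⟨d, hdD⟩, q, q'), ⟨hq2, hq1'⟩, ?_⟩
    rintro k hk ⟨hk1, hk2⟩
    simp only at hk1 hk2
    apply hball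
    rw [Metric.mem_ball, Real.dist_eq]
    have hb : ∀ k : WeakDual ℝ X, ‖WeakDual.toStrongDual k‖ ≤ r → |k x - k d| ≤ δ / 4 := by
      intro k hk
      have h1 := (WeakDual.toStrongDual k).le_opNorm (x - d)
      rw [Real.norm_eq_abs, map_sub] at h1
      refine (show |k x - k d| ≤ _ from h1).trans ?_
      rw [dist_eq_norm] at hd
      calc ‖WeakDual.toStrongDual k‖ * ‖x - d‖ ≤ r * (δ / (4 * (r + 1))) :=
            mul_le_mul hk hd.le (norm_nonneg _) hr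
        _ ≤ δ / 4 := by
            rw [mul_div_assoc', div_le_div_iff₀ (by positivity) (by norm_num)]
            nlinarith
    have h1 := hb k hk
    have h2 := hb g hgr
    rw [abs_le] at h1 h2
    rw [abs_lt]
    constructor <;> linarith [h1.1, h1.2, h2.1, h2.2]
  choose t ht1 ht2 using hδ
  refine ⟨I.attach.image fun x => t x.1 x.2, ?_, ?_⟩
  · intro p hp
    obtain ⟨x, hx, rfl⟩ := Finset.mem_image.mp hp
    exact ht1 x.1 x.2
  · intro k hk hkr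
    rw [← hVW]
    apply hIV
    intro x hx
    exact ht2 x hx k hkr (hk _ (Finset.mem_image_of_mem (fun x : I => t x.1 x.2)
      (Finset.mem_attach I ⟨x, hx⟩)))

/-- For an Asplund space, the dual has a dense subset which is not larger than any given
infinite dense subset of the space. -/
theorem exists_dense_dual (hX : IsAsplund X) {D : Set X} (hD : Dense D) (hinf : D.Infinite) :
    ∃ E : Set (X →L[ℝ] ℝ), Dense E ∧ #E ≤ #D := by
  classical
  have : Infinite D := hinf.to_subtype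
  have hκ : ℵ₀ ≤ #D := aleph0_le_mk D
  have hI : #(Finset (D × ℚ × ℚ)) ≤ #D := by
    rw [mk_finset_of_infinite]
    simp only [mk_prod, mk_eq_aleph0, lift_aleph0, lift_uzero]
    exact mul_le_of_le hκ le_rfl (by simp)
  -- covering of the ball of radius `n` by balls of radius `1/(m+1)`
  have key : ∀ n m : ℕ, ∃ E : Set (X →L[ℝ] ℝ), #E ≤ #D ∧
      ∀ g : X →L[ℝ] ℝ, ‖g‖ ≤ n → ∃ e ∈ E, ‖g - e‖ ≤ 1 / ((m : ℝ) + 1) := by
    intro n m
    set ε : ℝ := 1 / ((m : ℝ) + 1) with hε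
    have hε0 : 0 < ε := by positivity
    set A : Set (WeakDual ℝ X) :=
      WeakDual.toStrongDual ⁻¹' Metric.closedBall (0 : StrongDual ℝ X) n with hA
    have hAmem : ∀ g : WeakDual ℝ X, g ∈ A ↔ ‖WeakDual.toStrongDual g‖ ≤ n := by
      intro g
      rw [hA, mem_preimage, mem_closedBall_zero_iff]
    let Cov : Set (WeakDual ℝ X) → Prop := fun S => ∃ E : Set (X →L[ℝ] ℝ), #E ≤ #D ∧
      ∀ g ∈ S, ∃ e ∈ E, ‖WeakDual.toStrongDual g - e‖ ≤ ε
    let G : Set (Finset (D × ℚ × ℚ)) := {s | Cov (bas D s ∩ A)}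
    have hG : ∀ s : G, Cov (bas D s.1 ∩ A) := fun s => s.2
    choose E hE1 hE2 using hG
    have hEG : #(⋃ s : G, E s) ≤ #D :=
      mk_iUnion_le_of hκ ((mk_set_le G).trans hI) E hE1
    suffices hsub : A ⊆ ⋃ s : G, bas D s.1 by
      refine ⟨⋃ s : G, E s, hEG, fun g hg => ?_⟩
      have hgA : StrongDual.toWeakDual g ∈ A := (hAmem _).mpr hg
      obtain ⟨s, hs⟩ := mem_iUnion.mp (hsub hgA)
      obtain ⟨e, he, hge⟩ := hE2 s _ ⟨hs, hgA⟩
      exact ⟨e, mem_iUnion.mpr ⟨s, he⟩, hge⟩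
    by_contra hsub
    set A' : Set (WeakDual ℝ X) := A \ ⋃ s : G, bas D s.1 with hA'
    have hA'ne : A'.Nonempty := by
      rw [not_subset] at hsub
      obtain ⟨g, hg1, hg2⟩ := hsub
      exact ⟨g, hg1, hg2⟩
    obtain ⟨W, hW, ⟨g, hgW, hgA'⟩, hdiam⟩ := exists_frag hX hA'ne (r := n)
      (sdiff_subset) hε0
    obtain ⟨s, hgs, hs⟩ := exists_bas hD hW hgW (Nat.cast_nonneg n) ((hAmem g).mp hgA'.1)
    have hsG : s ∈ G := by
      refine ⟨insert (WeakDual.toStrongDual g) (⋃ s : G, E s), ?_, ?_⟩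
      · refine (mk_insert_le).trans ?_
        exact add_le_of_le hκ hEG (one_le_aleph0.trans hκ)
      · rintro k ⟨hks, hkA⟩
        by_cases hk : k ∈ ⋃ s : G, bas D s.1
        · obtain ⟨s', hs'⟩ := mem_iUnion.mp hk
          obtain ⟨e, he, hke⟩ := hE2 s' k ⟨hs', hkA⟩
          exact ⟨e, mem_insert_of_mem _ (mem_iUnion.mpr ⟨s', he⟩), hke⟩
        · refine ⟨_, mem_insert _ _, ?_⟩
          exact hdiam k ⟨hs k hks ((hAmem k).mp hkA), hkA, hk⟩ g ⟨hgW, hgA'⟩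
    exact hgA'.2 (mem_iUnion.mpr ⟨⟨s, hsG⟩, hgs⟩)
  choose E hE1 hE2 using key
  refine ⟨⋃ n, ⋃ m, E n m, ?_, ?_⟩
  · rw [Metric.dense_iff]
    intro g r hr
    obtain ⟨n, hn⟩ := exists_nat_ge ‖g‖
    obtain ⟨m, hm⟩ := exists_nat_one_div_lt hr
    obtain ⟨e, he, hge⟩ := hE2 n m g hn
    refine ⟨e, ?_, mem_iUnion.mpr ⟨n, mem_iUnion.mpr ⟨m, he⟩⟩⟩
    rw [Metric.mem_ball, dist_comm, dist_eq_norm]
    exact hge.trans_lt hm
  · exact mk_iUnion_le_of_countable hκ _ fun n => mk_iUnion_le_of_countable hκ _ fun m => hE1 n m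

end Pool.Agent.LibH11.Renorm
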