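import Mathlib

/-!
# Fragmentability of bounded sets in the dual of an Asplund space

helper11, problem MP_2b9b38_an.
-/

set_option autoImplicit false

open Set Filter Topology TopologicalSpace

namespace Pool.Agent.LibH11.Renorm

variable {X : Type*} [NormedAddCommGroup X] [NormedSpace ℝ X]

/-- Asplund property: separable subspaces have separable duals. -/
def IsAsplund (X : Type*) [NormedAddCommGroup X] [NormedSpace ℝ X] : Prop :=
  ∀ Y : Submodule ℝ X, SeparableSpace Y → SeparableSpace (Y →L[ℝ] ℝ)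

lemma no_uncountable_separated (hX : IsAsplund X) (S : Set X) (hS : S.Countable) {ι : Type*}
    [Uncountable ι] (F : ι → X →L[ℝ] ℝ) {ε : ℝ} (hε : 0 < ε)
    (h : ∀ i j, i ≠ j → ∃ x ∈ S, ‖x‖ ≤ 1 ∧ ε ≤ |F i x - F j x|) : False := by
  set Y : Submodule ℝ X := Submodule.span ℝ S with hY
  have hsep : SeparableSpace Y := (hS.isSeparable.span (R := ℝ)).separableSpace
  have hd := hX Y hsep
  have : Countable ι := by
    refine Pairwise.countable_of_isOpen_disjoint
      (s := fun i => Metric.ball ((F i).comp Y.subtypeL) (ε / 2)) ?_ (fun i => Metric.isOpen_ball)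
      (fun i => ⟨_, Metric.mem_ball_self (by positivity)⟩)
    intro i j hij
    apply Metric.ball_disjoint_ball
    obtain ⟨x, hxS, hx1, hx⟩ := h i j hij
    have hxY : x ∈ Y := Submodule.subset_span hxS
    have h0 : dist ((F i).comp Y.subtypeL) ((F j).comp Y.subtypeL)
        = ‖(F i).comp Y.subtypeL - (F j).comp Y.subtypeL‖ :=
      dist_eq_norm ((F i).comp Y.subtypeL) ((F j).comp Y.subtypeL)
    rw [h0]
    have h1 := ((F i).comp Y.subtypeL - (F j).comp Y.subtypeL).le_opNorm ⟨x, hxY⟩
    have h2 : ‖((F i).comp Y.subtypeL - (F j).comp Y.subtypeL) ⟨x, hxY⟩‖ = |F i x - F j x| := by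
      rw [Real.norm_eq_abs]; rfl
    rw [h2] at h1
    have h3 : ‖(⟨x, hxY⟩ : Y)‖ ≤ 1 := hx1
    have h4 : ‖(F i).comp Y.subtypeL - (F j).comp Y.subtypeL‖ * ‖(⟨x, hxY⟩ : Y)‖
        ≤ ‖(F i).comp Y.subtypeL - (F j).comp Y.subtypeL‖ :=
      mul_le_of_le_one_right (ContinuousLinearMap.opNorm_nonneg _) h3
    linarith
  exact not_countable this

/-- **Fragmentability**: a nonempty bounded subset of the dual of an Asplund space has
nonempty relatively weak-star open subsets of arbitrarily small diameter. -/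
lemma exists_frag (hX : IsAsplund X) {A : Set (WeakDual ℝ X)} (hA : A.Nonempty) {r : ℝ}
    (hAr : A ⊆ WeakDual.toStrongDual ⁻¹' Metric.closedBall (0 : StrongDual ℝ X) r)
    {ε : ℝ} (hε : 0 < ε) :
    ∃ U : Set (WeakDual ℝ X), IsOpen U ∧ (U ∩ A).Nonempty ∧
      ∀ g ∈ U ∩ A, ∀ g' ∈ U ∩ A,
        ‖WeakDual.toStrongDual g - WeakDual.toStrongDual g'‖ ≤ ε := by
  by_contra H
  push Not at H
  have H' : ∀ U : {U : Set (WeakDual ℝ X) // IsOpen U ∧ (U ∩ A).Nonempty},
      ∃ p : X × WeakDual ℝ X × WeakDual ℝ X, ‖p.1‖ ≤ 1 ∧ p.2.1 ∈ U.1 ∩ A ∧ p.2.2 ∈ U.1 ∩ A ∧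
        ε < p.2.1 p.1 - p.2.2 p.1 := by
    rintro ⟨U, hU, hUA⟩
    obtain ⟨g, hg, g', hg', hgg⟩ := H U hU hUA
    obtain ⟨x, hx1, hx⟩ := ContinuousLinearMap.exists_lt_apply_of_lt_opNorm _ hgg
    rw [Real.norm_eq_abs] at hx
    have hx' : ε < |g x - g' x| := hx
    rcases lt_abs.mp hx' with h | h
    · exact ⟨(x, g, g'), hx1.le, hg, hg', h⟩
    · exact ⟨(x, g', g), hx1.le, hg', hg, by simpa using h⟩
  choose p hp1 hp2 hp3 hp4 using H'
  let child : Bool → {U : Set (WeakDual ℝ X) // IsOpen U ∧ (U ∩ A).Nonempty} →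
      {U : Set (WeakDual ℝ X) // IsOpen U ∧ (U ∩ A).Nonempty} := fun b U =>
    match b with
    | true => ⟨U.1 ∩ {k | (p U).2.1 (p U).1 - ε / 4 < k (p U).1},
        U.2.1.inter (isOpen_lt continuous_const (WeakDual.eval_continuous _)),
        ⟨(p U).2.1, ⟨(hp2 U).1, by simp only [mem_ofPred_eq]; linarith⟩, (hp2 U).2⟩⟩
    | false => ⟨U.1 ∩ {k | k (p U).1 < (p U).2.2 (p U).1 + ε / 4},
        U.2.1.inter (isOpen_lt (WeakDual.eval_continuous _) continuous_const),
        ⟨(p U).2.2, ⟨(hp3 U).1, by simp only [mem_ofPred_eq]; linarith⟩, (hp3 U).2⟩⟩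
  let B : List Bool → {U : Set (WeakDual ℝ X) // IsOpen U ∧ (U ∩ A).Nonempty} := fun l =>
    l.rec ⟨univ, isOpen_univ, by simpa using hA⟩ (fun b _ U => child b U)
  let path : (ℕ → Bool) → ℕ → List Bool := fun σ n =>
    n.rec [] (fun n l => σ n :: l)
  have hpath0 : ∀ σ, path σ 0 = [] := fun σ => rfl
  have hpath : ∀ σ n, path σ (n + 1) = σ n :: path σ n := fun σ n => rfl
  have hB : ∀ b l, B (b :: l) = child b (B l) := fun b l => rfl
  let K : (ℕ → Bool) → ℕ → Set (WeakDual ℝ X) := fun σ n => closure ((B (path σ n)).1 ∩ A)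
  have hKA : ∀ U : Set (WeakDual ℝ X), closure (U ∩ A) ⊆
      WeakDual.toStrongDual ⁻¹' Metric.closedBall (0 : StrongDual ℝ X) r := fun U =>
    closure_minimal (inter_subset_right.trans hAr) (WeakDual.isClosed_closedBall _ _)
  have hK : ∀ σ, (⋂ n, K σ n).Nonempty := by
    intro σ
    refine IsCompact.nonempty_iInter_of_sequence_nonempty_isCompact_isClosed _ ?_ ?_ ?_ ?_
    · intro n
      refine closure_mono (inter_subset_inter_left _ ?_)
      rw [hpath, hB]
      cases σ n
      · exact inter_subset_left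
      · exact inter_subset_left
    · intro n
      exact (B (path σ n)).2.2.mono subset_closure
    · exact (WeakDual.isCompact_closedBall _ _).of_isClosed_subset isClosed_closure (hKA _)
    · intro n
      exact isClosed_closure
  choose F hF using hK
  have hF' : ∀ σ n, F σ ∈ K σ n := fun σ n => mem_iInter.mp (hF σ) n
  have htrue : ∀ σ n, σ n = true →
      (p (B (path σ n))).2.1 (p (B (path σ n))).1 - ε / 4 ≤ F σ (p (B (path σ n))).1 := by
    intro σ n hn
    have h1 := hF' σ (n + 1)
    simp only [K, hpath, hB, hn] at h1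
    have h2 : closure ((child true (B (path σ n))).1 ∩ A) ⊆
        {k : WeakDual ℝ X | (p (B (path σ n))).2.1 (p (B (path σ n))).1 - ε / 4
          ≤ k (p (B (path σ n))).1} := by
      refine closure_minimal ?_ (isClosed_le continuous_const (WeakDual.eval_continuous _))
      rintro k ⟨⟨_, hk⟩, _⟩
      rw [mem_ofPred_eq] at hk ⊢
      exact hk.le
    exact h2 h1
  have hfalse : ∀ σ n, σ n = false →
      F σ (p (B (path σ n))).1 ≤ (p (B (path σ n))).2.2 (p (B (path σ n))).1 + ε / 4 := by
    intro σ n hn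
    have h1 := hF' σ (n + 1)
    simp only [K, hpath, hB, hn] at h1
    have h2 : closure ((child false (B (path σ n))).1 ∩ A) ⊆
        {k : WeakDual ℝ X | k (p (B (path σ n))).1
          ≤ (p (B (path σ n))).2.2 (p (B (path σ n))).1 + ε / 4} := by
      refine closure_minimal ?_ (isClosed_le (WeakDual.eval_continuous _) continuous_const)
      rintro k ⟨⟨_, hk⟩, _⟩
      rw [mem_ofPred_eq] at hk ⊢
      exact hk.le
    exact h2 h1
  have hunc : Uncountable (ℕ → Bool) := by
    rw [← Cardinal.aleph0_lt_mk_iff]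
    simpa using Cardinal.aleph0_lt_continuum
  refine no_uncountable_separated hX (range fun l : List Bool => (p (B l)).1)
    (countable_range _) (ι := ℕ → Bool) (fun σ => WeakDual.toStrongDual (F σ))
    (ε := ε / 2) (by positivity) ?_
  intro σ τ hστ
  have hne : ∃ n, σ n ≠ τ n := Function.ne_iff.mp hστ
  set n := Nat.find hne with hn
  have hn1 : σ n ≠ τ n := Nat.find_spec hne
  have hn2 : ∀ m, m < n → σ m = τ m := fun m hm => not_not.mp (Nat.find_min hne hm)
  have hpeq : ∀ m, m ≤ n → path σ m = path τ m := by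
    intro m
    induction m with
    | zero => intro _; rfl
    | succ m ih =>
      intro hm
      rw [hpath, hpath, ih (by omega), hn2 m (by omega)]
  have hpn := hpeq n le_rfl
  refine ⟨(p (B (path σ n))).1, ⟨_, rfl⟩, hp1 _, ?_⟩
  have h4 := hp4 (B (path σ n))
  cases hσ : σ n with
  | true =>
    have hτ : τ n = false := by
      cases h : τ n with
      | true => exact absurd (hσ.trans h.symm) hn1
      | false => rfl
    have h1 := htrue σ n hσ
    have h2 := hfalse τ n hτ
    rw [← hpn] at h2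
    refine le_trans ?_ (le_abs_self _)
    simp only [WeakDual.toStrongDual_apply]
    linarith
  | false =>
    have hτ : τ n = true := by
      cases h : τ n with
      | false => exact absurd (hσ.trans h.symm) hn1
      | true => rfl
    have h1 := hfalse σ n hσ
    have h2 := htrue τ n hτ
    rw [← hpn] at h2
    refine le_trans ?_ (neg_le_abs _)
    simp only [WeakDual.toStrongDual_apply]
    linarith

end Pool.Agent.LibH11.Renorm
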