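import Pool.Agent.LibH11.Renorm.Nec

/-!
# Gluing dominated systems, and the renorming

helper11, problem MP_2b9b38_an.
-/

set_option autoImplicit false

open Set Filter Topology TopologicalSpace Cardinal

universe u

namespace Pool.Agent.LibH11.Renorm

variable {X : Type u} [NormedAddCommGroup X] [NormedSpace ℝ X]

/-- **Sufficiency, graded form.** -/
theorem exists_norm_of_graded_aux {ι : Type*} [Nonempty ι] (x : ι → X) (f h : ι → X →L[ℝ] ℝ)
    (C M : ℝ) (ρ : ι → ℝ) (hρ : ∀ i, 0 < ρ i) (hMC : C + 1 ≤ M) (hx : ∀ i, ‖x i‖ ≤ C)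
    (hf : ∀ i, ‖f i‖ ≤ C) (hh : ∀ i, ‖h i‖ ≤ C) (hfx : ∀ i, f i (x i) = 1)
    (hdom : ∀ i j, i ≠ j → M * |f j (x i)| + |h j (x i)| ≤ M - ρ i)
    (hspan : (Submodule.span ℝ (range h)).topologicalClosure = ⊤) :
    ∃ N : X → ℝ, EquivNorm N ∧ NoProperNorming N := by
  have hC : 0 ≤ C := (norm_nonneg _).trans (hx (Classical.arbitrary ι))
  have hM : 0 < M := by linarith
  set L : ℝ := M * C + C with hL
  have hL0 : 0 ≤ L := by positivity
  have hbdd : ∀ z, BddAbove (range fun i => pp M (f i) (h i) z) := fun z =>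
    ⟨L * ‖z‖, by rintro _ ⟨i, rfl⟩; exact pp_le_norm hM.le (hf i) (hh i) z⟩
  set N : X → ℝ := fun z => max ‖z‖ (⨆ i, pp M (f i) (h i) z) with hN
  refine ⟨N, ⟨?_, ?_, 1, max 1 L, one_pos, by positivity, ?_⟩, ?_⟩
  · intro z w
    refine max_le ?_ ?_
    · exact (norm_add_le z w).trans (add_le_add (le_max_left _ _) (le_max_left _ _))
    · refine ciSup_le fun i => (pp_add M (f i) (h i) z w).trans ?_
      exact add_le_add ((le_ciSup (hbdd z) i).trans (le_max_right _ _))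
        ((le_ciSup (hbdd w) i).trans (le_max_right _ _))
  · intro r z
    simp only [hN, norm_smul, Real.norm_eq_abs, pp_smul]
    rw [← Real.mul_iSup_of_nonneg (abs_nonneg r), mul_max_of_nonneg _ _ (abs_nonneg r)]
  · intro z
    refine ⟨by rw [one_mul]; exact le_max_left _ _, max_le ?_ (ciSup_le fun i => ?_)⟩
    · exact le_mul_of_one_le_left (norm_nonneg z) (le_max_left _ _)
    · exact (pp_le_norm hM.le (hf i) (hh i) z).trans
        (mul_le_mul_of_nonneg_right (le_max_right _ _) (norm_nonneg z))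
  · intro Y hY hYn
    -- near `x i` the norm is `pp M (f i) (h i)`
    set r : ι → ℝ := fun i => min (ρ i) 1 / (2 * (L + 1)) with hr
    have hr0 : ∀ i, 0 < r i := fun i => by
      have : 0 < min (ρ i) 1 := lt_min (hρ i) one_pos
      positivity
    have hr2 : ∀ i, (L + 1) * r i = min (ρ i) 1 / 2 := fun i => by
      simp only [hr]; field_simp
    have hlow : ∀ i z, dist z (x i) < r i → M - min (ρ i) 1 / 2 + r i ≤ pp M (f i) (h i) z := by
      intro i z hz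
      rw [dist_eq_norm] at hz
      have h1 := pp_lip hM.le (hf i) (hh i) (x i) z
      have h2 := pp_ge hM.le (f i) (h i) (x i)
      rw [hfx i, abs_one, mul_one] at h2
      have h3 : L * ‖x i - z‖ ≤ L * r i := by
        rw [norm_sub_rev]
        exact mul_le_mul_of_nonneg_left hz.le hL0
      have h4 := hr2 i
      linarith
    have hup : ∀ i j z, i ≠ j → dist z (x i) < r i → pp M (f j) (h j) z
        ≤ M - min (ρ i) 1 / 2 := by
      intro i j z hij hz
      rw [dist_eq_norm] at hz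
      have h1 := pp_lip hM.le (hf j) (hh j) z (x i)
      have h2 := pp_le hM.le (f j) (h j) (x i)
      have h3 : L * ‖z - x i‖ ≤ L * r i := mul_le_mul_of_nonneg_left hz.le hL0
      have h5 := hdom i j hij
      have h6 := hr2 i
      have h7 := hr0 i
      have h8 : min (ρ i) 1 ≤ ρ i := min_le_left _ _
      linarith
    have hNeq : ∀ i z, dist z (x i) < r i → N z = pp M (f i) (h i) z := by
      intro i z hz
      have h1 := hlow i z hz
      have h7 := hr0 i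
      have h2 : (⨆ j, pp M (f j) (h j) z) = pp M (f i) (h i) z := by
        refine le_antisymm (ciSup_le fun j => ?_) (le_ciSup (hbdd z) i)
        by_cases hij : i = j
        · rw [hij]
        · exact (hup i j z hij hz).trans (by linarith)
      have h3 : ‖z‖ ≤ pp M (f i) (h i) z := by
        have h4 : ‖z‖ ≤ ‖z - x i‖ + ‖x i‖ := by
          simpa using norm_add_le (z - x i) (x i)
        rw [dist_eq_norm] at hz
        have h5 : min (ρ i) 1 ≤ 1 := min_le_right _ _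
        linarith [hx i]
      simp only [hN, h2]
      exact max_eq_right h3
    have hmem : ∀ i, f i ∈ Y ∧ h i ∈ Y := by
      intro i
      refine mem_both hM.ne' (f i) (h i) (x i) (hfx i) Y ?_
      rw [Metric.eventually_nhds_iff]
      refine ⟨r i, hr0 i, fun z hz => ?_⟩
      have hpos : 0 < pp M (f i) (h i) z := by
        have := hlow i z hz
        have h5 : min (ρ i) 1 ≤ 1 := min_le_right _ _
        linarith [hr0 i]
      have hpos' : 0 < M ^ 2 * f i z ^ 2 + h i z ^ 2 := Real.sqrt_pos.mp hpos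
      have hev : N =ᶠ[𝓝 z] fun y => Real.sqrt (M ^ 2 * f i y ^ 2 + h i y ^ 2) := by
        have : Metric.ball (x i) (r i) ∈ 𝓝 z := Metric.isOpen_ball.mem_nhds hz
        filter_upwards [this] with y hy
        exact hNeq i y hy
      have hder := (hasFDerivAt_sqrt M (f i) (h i) z hpos').congr_of_eventuallyEq hev
      have hin := mem_of_hasFDerivAt hder hY hYn
      have := Y.smul_mem (pp M (f i) (h i) z) hin
      rw [smul_smul] at this
      have hone : pp M (f i) (h i) z * (1 / Real.sqrt (M ^ 2 * f i z ^ 2 + h i z ^ 2)) = 1 := by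
        rw [mul_one_div]; exact div_self hpos.ne'
      rwa [hone, one_smul] at this
    rw [eq_top_iff, ← hspan]
    refine Submodule.topologicalClosure_minimal _ ?_ hY
    rw [Submodule.span_le]
    rintro _ ⟨i, rfl⟩
    exact (hmem i).2

/-- A surjection-like enumeration of a nonempty set by a larger type. -/
lemma exists_enum {α ι : Type u} {E : Set α} (hE : E.Nonempty) (h : #E ≤ #ι) :
    ∃ e : ι → α, E ⊆ range e := by
  classical
  obtain ⟨e₀, he₀⟩ := hE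
  obtain ⟨emb⟩ := (Cardinal.le_def _ _).mp h
  refine ⟨fun i => if h : ∃ k : E, emb k = i then (h.choose : α) else e₀, ?_⟩
  intro k hk
  refine ⟨emb ⟨k, hk⟩, ?_⟩
  have h : ∃ k' : E, emb k' = emb ⟨k, hk⟩ := ⟨_, rfl⟩
  have h2 : h.choose = ⟨k, hk⟩ := emb.injective h.choose_spec
  simp only [dif_pos h, h2]

/-- The graded renorming. -/
theorem exists_norm_of_graded (hX : IsAsplund X) {D : Set X} (hD : Dense D)
    (hinf : D.Infinite) {ι : Type u} (hι : #D ≤ #ι) (x : ι → X) (f : ι → X →L[ℝ] ℝ)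
    (C δ : ℝ) (ρ : ι → ℝ) (hδ : 0 < δ) (hρ : ∀ i, 0 < ρ i) (hx : ∀ i, ‖x i‖ ≤ C)
    (hf : ∀ i, ‖f i‖ ≤ C) (hfx : ∀ i, f i (x i) = 1)
    (hdom : ∀ i j, i ≠ j → |f j (x i)| ≤ 1 - δ ∨ (|f j (x i)| ≤ 1 - ρ i ∧ ρ j = ρ i)) :
    ∃ N : X → ℝ, EquivNorm N ∧ NoProperNorming N := by
  obtain ⟨E, hE, hED⟩ := exists_dense_dual hX hD hinf
  have hDne : Nonempty D := hinf.nonempty.to_subtype
  have hιne : Nonempty ι := by
    rw [← mk_ne_zero_iff]
    intro h
    rw [h] at hι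
    exact (mk_ne_zero D) (nonpos_iff_eq_zero.mp hι)
  obtain ⟨e, he⟩ := exists_enum hE.nonempty (hED.trans hι)
  set C' : ℝ := max C 1 with hC'
  have hC'1 : 1 ≤ C' := le_max_right _ _
  have hC'0 : 0 < C' := by linarith
  set M : ℝ := C' + 1 + 2 / δ with hM
  have hM1 : 1 ≤ M := by
    have : 0 < 2 / δ := by positivity
    linarith
  have hMδ : 2 ≤ M * δ := by
    have : 2 / δ * δ = 2 := by field_simp
    nlinarith
  set c : ι → ℝ := fun i => min 1 (ρ i / 2) / C' with hc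
  have hc0 : ∀ i, 0 < c i := fun i => by
    have : 0 < min 1 (ρ i / 2) := lt_min one_pos (by linarith [hρ i])
    positivity
  have hcC : ∀ i, c i * C' = min 1 (ρ i / 2) := fun i => by
    simp only [hc]; field_simp
  have hh1 : ∀ i, ‖(c i * (1 + ‖e i‖)⁻¹) • e i‖ ≤ c i := by
    intro i
    have h1 : 0 < 1 + ‖e i‖ := by positivity
    rw [norm_smul, norm_mul, norm_inv, Real.norm_of_nonneg h1.le, Real.norm_of_nonneg (hc0 i).le,
      mul_assoc]
    refine mul_le_of_le_one_right (hc0 i).le ?_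
    rw [inv_mul_le_one₀ h1]
    linarith
  have hh2 : ∀ i, ∀ j, |((c j * (1 + ‖e j‖)⁻¹) • e j) (x i)| ≤ min 1 (ρ j / 2) := by
    intro i j
    have h1 := ((c j * (1 + ‖e j‖)⁻¹) • e j).le_opNorm (x i)
    rw [Real.norm_eq_abs] at h1
    refine h1.trans ?_
    rw [← hcC]
    exact mul_le_mul (hh1 j) ((hx i).trans (le_max_left _ _)) (norm_nonneg _) (hc0 j).le
  refine exists_norm_of_graded_aux x f (fun i => (c i * (1 + ‖e i‖)⁻¹) • e i) C' M
    (fun i => min 1 (ρ i / 2)) (fun i => lt_min one_pos (by linarith [hρ i])) ?_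
    (fun i => (hx i).trans (le_max_left _ _)) (fun i => (hf i).trans (le_max_left _ _))
    (fun i => (hh1 i).trans ?_) hfx ?_ ?_
  · have : 0 < 2 / δ := by positivity
    linarith
  · have h1 := hcC i
    have h2 : min 1 (ρ i / 2) ≤ 1 := min_le_left _ _
    have h3 : c i * 1 ≤ c i * C' := mul_le_mul_of_nonneg_left hC'1 (hc0 i).le
    linarith
  · intro i j hij
    have h1 := hh2 i j
    have h2 : min 1 (ρ j / 2) ≤ 1 := min_le_left _ _
    have h3 : min 1 (ρ j / 2) ≤ ρ j / 2 := min_le_right _ _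
    have h4 : min 1 (ρ i / 2) ≤ 1 := min_le_left _ _
    have h5 : min 1 (ρ i / 2) ≤ ρ i / 2 := min_le_right _ _
    rcases hdom i j hij with h | ⟨h, hρij⟩
    · have h6 : M * |f j (x i)| ≤ M * (1 - δ) := mul_le_mul_of_nonneg_left h (by linarith)
      nlinarith
    · have h6 : M * |f j (x i)| ≤ M * (1 - ρ i) := mul_le_mul_of_nonneg_left h (by linarith)
      have h7 := hρ i
      rw [hρij] at h3 h1
      nlinarith
  · rw [eq_top_iff]
    have h1 : E ⊆ (Submodule.span ℝ (range fun i => (c i * (1 + ‖e i‖)⁻¹) • e i) :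
        Set (X →L[ℝ] ℝ)) := by
      intro k hk
      obtain ⟨i, rfl⟩ := he hk
      have h2 : (c i * (1 + ‖e i‖)⁻¹) • e i ∈
          Submodule.span ℝ (range fun i => (c i * (1 + ‖e i‖)⁻¹) • e i) :=
        Submodule.subset_span ⟨i, rfl⟩
      have hne : c i * (1 + ‖e i‖)⁻¹ ≠ 0 := by
        have := hc0 i
        positivity
      have h3 := Submodule.smul_mem _ (c i * (1 + ‖e i‖)⁻¹)⁻¹ h2
      rwa [smul_smul, inv_mul_cancel₀ hne, one_smul] at h3
    intro k _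
    have h2 : k ∈ closure E := by rw [hE.closure_eq]; exact mem_univ k
    exact closure_mono h1 h2

/-- **Gluing.** If `X` has bounded uniformly dominated systems of every regular uncountable
size up to its density, then it has the renorming. -/
theorem exists_norm_of_hasSystem (hX : IsAsplund X) {κ : Cardinal.{u}} (hκ : ℵ₀ < κ)
    {D : Set X} (hD : Dense D) (hDκ : #D = κ)
    (hsys : ∀ ν : Cardinal.{u}, ν.IsRegular → ℵ₀ < ν → ν ≤ κ → HasSystem X ν) :
    ∃ N : X → ℝ, EquivNorm N ∧ NoProperNorming N := by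
  classical
  obtain ⟨Ξ, g, hg, hΞ⟩ := Ordinal.exists_lsub_cof κ.ord
  have hlt : ∀ ξ, g ξ < κ.ord := fun ξ => hg ▸ Ordinal.lt_lsub g ξ
  set ν : Ξ → Cardinal.{u} := fun ξ => Order.succ (max ℵ₀ (g ξ).card) with hν
  have hν1 : ∀ ξ, (ν ξ).IsRegular := fun ξ => isRegular_succ (le_max_left _ _)
  have hν2 : ∀ ξ, ℵ₀ < ν ξ := fun ξ => Order.lt_succ_of_le (le_max_left _ _)
  have hν3 : ∀ ξ, ν ξ ≤ κ := fun ξ =>
    Order.succ_le_of_lt (max_lt hκ (lt_ord.mp (hlt ξ)))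
  -- the top system
  have htop : HasSystem X (max κ.ord.cof ℵ₁) := by
    refine hsys _ ?_ (lt_max_of_lt_right aleph0_lt_aleph_one) (max_le (Ordinal.cof_ord_le κ) ?_)
    · rcases le_total κ.ord.cof ℵ₁ with h | h
      · rw [max_eq_right h]; exact isRegular_aleph_one
      · rw [max_eq_left h]
        exact isRegular_cof (isSuccLimit_ord hκ.le)
    · rw [← succ_aleph0]; exact Order.succ_le_of_lt hκ
  obtain ⟨U, C₀, δ₀, hU, hδ₀, hU1, hU2⟩ := htop
  have hUinf : ℵ₀ < #U := lt_of_lt_of_le (lt_max_of_lt_right aleph0_lt_aleph_one) hU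
  obtain ⟨emb⟩ := (Cardinal.le_def Ξ U).mp (hΞ ▸ (le_max_left _ _).trans hU)
  have hδ₀1 : δ₀ ≤ 1 := by
    have : Infinite U := by
      rw [← aleph0_le_mk_iff]; exact hUinf.le
    obtain ⟨p⟩ : Nonempty U := inferInstance
    obtain ⟨q, hq⟩ := exists_ne p
    have h1 := hU2 p p.2 q q.2 (fun h => hq (Subtype.ext h.symm))
    have h2 := abs_nonneg ((q : X × (X →L[ℝ] ℝ)).2 (p : X × (X →L[ℝ] ℝ)).1)
    linarith
  set C1 : ℝ := max C₀ 1 with hC1
  have hC11 : 1 ≤ C1 := le_max_right _ _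
  set s : ℝ := δ₀ / (12 * C1) with hs
  have hs0 : 0 < s := by positivity
  have hsC : s * C1 = δ₀ / 12 := by rw [hs]; field_simp
  have hs1 : s ≤ 1 := by
    have : s * 1 ≤ s * C1 := mul_le_mul_of_nonneg_left hC11 hs0.le
    linarith
  -- the levels
  choose S Cl δ hS hδ hS1 hS2 using fun ξ => hsys (ν ξ) (hν1 ξ) (hν2 ξ) (hν3 ξ)
  set a : Ξ → ℝ := fun ξ => s / max (Cl ξ) 1 with ha
  have ha0 : ∀ ξ, 0 < a ξ := fun ξ => by
    have : 0 < max (Cl ξ) 1 := lt_max_of_lt_right one_pos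
    positivity
  have haC : ∀ ξ, ∀ t : ℝ, t ≤ Cl ξ → a ξ * t ≤ s := by
    intro ξ t ht
    have h1 : 0 < max (Cl ξ) 1 := lt_max_of_lt_right one_pos
    have h2 : a ξ * max (Cl ξ) 1 = s := by simp only [ha]; field_simp
    rw [← h2]
    exact mul_le_mul_of_nonneg_left (ht.trans (le_max_left _ _)) (ha0 ξ).le
  let u : Ξ → X := fun ξ => (emb ξ).1.1
  let v : Ξ → (X →L[ℝ] ℝ) := fun ξ => (emb ξ).1.2
  have hu : ∀ ξ, ‖u ξ‖ ≤ C1 := fun ξ => (hU1 _ (emb ξ).2).1.trans (le_max_left _ _)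
  have hv : ∀ ξ, ‖v ξ‖ ≤ C1 := fun ξ => (hU1 _ (emb ξ).2).2.1.trans (le_max_left _ _)
  have huv : ∀ ξ, v ξ (u ξ) = 1 := fun ξ => (hU1 _ (emb ξ).2).2.2
  have huv2 : ∀ ξ ζ, ξ ≠ ζ → |v ζ (u ξ)| ≤ 1 - δ₀ := fun ξ ζ h =>
    hU2 _ (emb ξ).2 _ (emb ζ).2 (fun h' => h (emb.injective (Subtype.ext h')))
  -- thin out the levels
  have hthin : ∀ ξ, ∃ T : Set (S ξ), ν ξ ≤ #T ∧
      ∀ p ∈ T, ∀ q ∈ T, |v ξ p.1.1 - v ξ q.1.1| ≤ a ξ * δ ξ / 2 := by
    intro ξ
    have hpos : 0 < a ξ * δ ξ / 2 := by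
      have := ha0 ξ
      have := hδ ξ
      positivity
    obtain ⟨k, hk⟩ := infinite_pigeonhole_card
      (fun p : S ξ => ULift.up.{u} ⌊v ξ p.1.1 / (a ξ * δ ξ / 2)⌋) (ν ξ) (hS ξ) (hν2 ξ).le
      (by rw [(hν1 ξ).cof_ord]; simpa using hν2 ξ)
    refine ⟨_, hk, ?_⟩
    intro p hp q hq
    have h1 : ⌊v ξ p.1.1 / (a ξ * δ ξ / 2)⌋ = ⌊v ξ q.1.1 / (a ξ * δ ξ / 2)⌋ := by
      have e1 : ULift.up.{u} ⌊v ξ p.1.1 / (a ξ * δ ξ / 2)⌋ = k := hp
      have e2 : ULift.up.{u} ⌊v ξ q.1.1 / (a ξ * δ ξ / 2)⌋ = k := hq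
      exact congrArg ULift.down (e1.trans e2.symm)
    have h2 := Int.abs_sub_lt_one_of_floor_eq_floor h1
    rw [← sub_div, abs_div, abs_of_pos hpos, div_lt_one hpos] at h2
    exact h2.le
  choose T hT hT2 using hthin
  -- the glued system
  let x' : (Σ ξ, T ξ) → X := fun i => u i.1 + a i.1 • i.2.1.1.1
  let F : (Σ ξ, T ξ) → (X →L[ℝ] ℝ) := fun i => v i.1 + a i.1 • i.2.1.1.2
  have hax : ∀ i : (Σ ξ, T ξ), ‖a i.1 • i.2.1.1.1‖ ≤ s := fun i => by
    rw [norm_smul, Real.norm_of_nonneg (ha0 _).le]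
    exact haC _ _ (hS1 _ _ i.2.1.2).1
  have haf : ∀ i : (Σ ξ, T ξ), ‖a i.1 • i.2.1.1.2‖ ≤ s := fun i => by
    rw [norm_smul, Real.norm_of_nonneg (ha0 _).le]
    exact haC _ _ (hS1 _ _ i.2.1.2).2.1
  have hF : ∀ i j : (Σ ξ, T ξ), |F j (x' i) - v j.1 (u i.1)| ≤ δ₀ / 4 := by
    intro i j
    have h1 : F j (x' i) - v j.1 (u i.1) = v j.1 (a i.1 • i.2.1.1.1)
        + (a j.1 • j.2.1.1.2) (u i.1) + (a j.1 • j.2.1.1.2) (a i.1 • i.2.1.1.1) := by
      simp only [F, x', add_apply, map_add]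
      ring
    have h2 : |v j.1 (a i.1 • i.2.1.1.1)| ≤ C1 * s :=
      ((v j.1).le_opNorm _).trans (mul_le_mul (hv _) (hax i) (norm_nonneg _) (by linarith))
    have h3 : |(a j.1 • j.2.1.1.2) (u i.1)| ≤ s * C1 :=
      ((a j.1 • j.2.1.1.2).le_opNorm _).trans (mul_le_mul (haf j) (hu _) (norm_nonneg _) hs0.le)
    have h4 : |(a j.1 • j.2.1.1.2) (a i.1 • i.2.1.1.1)| ≤ s * s :=
      ((a j.1 • j.2.1.1.2).le_opNorm _).trans (mul_le_mul (haf j) (hax i) (norm_nonneg _) hs0.le)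
    have h5 : s * s ≤ s * C1 := mul_le_mul_of_nonneg_left (hs1.trans hC11) hs0.le
    rw [h1]
    have h6 := abs_add_three (v j.1 (a i.1 • i.2.1.1.1)) ((a j.1 • j.2.1.1.2) (u i.1))
      ((a j.1 • j.2.1.1.2) (a i.1 • i.2.1.1.1))
    linarith
  have hd1 : ∀ i, 1 - δ₀ / 4 ≤ F i (x' i) := fun i => by
    have := (abs_le.mp (hF i i)).1
    rw [huv] at this
    linarith
  have hd2 : ∀ i, F i (x' i) ≤ 1 + δ₀ / 4 := fun i => by
    have := (abs_le.mp (hF i i)).2
    rw [huv] at this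
    linarith
  have hd0 : ∀ i, 0 < F i (x' i) := fun i => by
    have := hd1 i
    linarith
  have hcard : #D ≤ #(Σ ξ, T ξ) := by
    rw [hDκ]
    refine le_of_forall_lt fun c hc => ?_
    have h1 : c.ord < κ.ord := ord_lt_ord.mpr hc
    rw [← hg] at h1
    obtain ⟨ξ, hξ⟩ := Ordinal.lt_lsub_iff.mp h1
    have h2 : c ≤ (g ξ).card := ord_le.mp hξ
    have h3 : c < ν ξ := Order.lt_succ_of_le (h2.trans (le_max_right _ _))
    refine h3.trans_le ((hT ξ).trans ?_)
    exact mk_le_of_injective (f := fun t : T ξ => (⟨ξ, t⟩ : Σ ξ, T ξ))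
      (fun t t' h => eq_of_heq (Sigma.mk.inj h).2)
  have hinf : D.Infinite := by
    rw [← infinite_coe_iff, ← aleph0_le_mk_iff, hDκ]
    exact hκ.le
  refine exists_norm_of_graded hX hD hinf hcard x' (fun i => (F i (x' i))⁻¹ • F i)
    (2 * (C1 + 1)) (δ₀ / 2) (fun i => a i.1 ^ 2 * δ i.1 / 4) (by positivity) ?_ ?_ ?_ ?_ ?_
  · intro i
    have h1 := ha0 i.1
    have h2 := hδ i.1
    positivity
  · intro i
    refine (norm_add_le _ _).trans ?_
    linarith [hu i.1, hax i]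
  · intro i
    have h1 : ‖F i‖ ≤ C1 + 1 := (norm_add_le _ _).trans (by linarith [hv i.1, haf i])
    rw [norm_smul, norm_inv, Real.norm_of_nonneg (hd0 i).le]
    refine mul_le_mul ?_ h1 (norm_nonneg _) (by norm_num)
    rw [inv_le_comm₀ (hd0 i) (by norm_num)]
    linarith [hd1 i]
  · intro i
    rw [smul_apply, smul_eq_mul]
    exact inv_mul_cancel₀ (hd0 i).ne'
  · intro i j hij
    have hdj := hd0 j
    rw [smul_apply, smul_eq_mul, abs_mul, abs_of_pos (inv_pos.mpr hdj)]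
    by_cases hlev : i.1 = j.1
    · right
      obtain ⟨ξ, p⟩ := i
      obtain ⟨ζ, q⟩ := j
      simp only at hlev
      subst hlev
      refine ⟨?_, rfl⟩
      have hpq : p ≠ q := fun h => hij (by rw [h])
      have hpq' : (p.1 : X × (X →L[ℝ] ℝ)) ≠ q.1 := fun h =>
        hpq (Subtype.ext (Subtype.ext h))
      have h1 := hS2 ξ p.1 p.1.2 q.1 q.1.2 hpq'
      have h2 := hT2 ξ p p.2 q q.2
      have h3 := (hS1 ξ q.1 q.1.2).2.2
      have ha' := ha0 ξ
      have hδ' := hδ ξ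
      have h4 : F ⟨ξ, q⟩ (x' ⟨ξ, q⟩) - F ⟨ξ, q⟩ (x' ⟨ξ, p⟩)
          = a ξ * (v ξ q.1.1.1 - v ξ p.1.1.1) + a ξ ^ 2 * (1 - q.1.1.2 p.1.1.1) := by
        simp only [F, x', add_apply, map_add, smul_apply, map_smul, smul_eq_mul]
        rw [h3]
        ring
      have h5 : a ξ ^ 2 * δ ξ / 2 ≤ F ⟨ξ, q⟩ (x' ⟨ξ, q⟩) - F ⟨ξ, q⟩ (x' ⟨ξ, p⟩) := by
        rw [h4]
        have h6 := (abs_le.mp h2).2
        have h7 := (abs_le.mp h1).2
        have h8 : a ξ * (v ξ p.1.1.1 - v ξ q.1.1.1) ≤ a ξ * (a ξ * δ ξ / 2) :=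
          mul_le_mul_of_nonneg_left h6 ha'.le
        have h9 : a ξ ^ 2 * δ ξ ≤ a ξ ^ 2 * (1 - q.1.1.2 p.1.1.1) :=
          mul_le_mul_of_nonneg_left (by linarith) (by positivity)
        nlinarith
      have h6 : 0 < F ⟨ξ, q⟩ (x' ⟨ξ, p⟩) := by
        have := (abs_le.mp (hF ⟨ξ, p⟩ ⟨ξ, q⟩)).1
        simp only [huv] at this
        linarith
      rw [abs_of_pos h6, inv_mul_le_iff₀ hdj]
      have h7 := hd2 ⟨ξ, q⟩
      have h8 : F ⟨ξ, q⟩ (x' ⟨ξ, q⟩) * (a ξ ^ 2 * δ ξ / 4) ≤ 2 * (a ξ ^ 2 * δ ξ / 4) :=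
        mul_le_mul_of_nonneg_right (by linarith) (by positivity)
      nlinarith
    · left
      have h1 := huv2 i.1 j.1 hlev
      have h2 := hF i j
      have h3 : |F j (x' i)| ≤ 1 - δ₀ + δ₀ / 4 := by
        have := abs_add_le (F j (x' i) - v j.1 (u i.1)) (v j.1 (u i.1))
        rw [sub_add_cancel] at this
        linarith
      rw [inv_mul_le_iff₀ hdj]
      have h4 : (1 - δ₀ / 4) * (1 - δ₀ / 2) ≤ F j (x' j) * (1 - δ₀ / 2) :=
        mul_le_mul_of_nonneg_right (hd1 j) (by linarith)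
      nlinarith [sq_nonneg δ₀]

end Pool.Agent.LibH11.Renorm
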