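import Pool.Agent.LibH11.Renorm.Biorth

/-!
# Necessity: dominated systems from a renorming without proper closed 1-norming subspaces

helper11, problem MP_2b9b38_an.
-/

set_option autoImplicit false

open Set Filter Topology TopologicalSpace Cardinal

universe u

namespace Pool.Agent.LibH11.Renorm

variable {X : Type u} [NormedAddCommGroup X] [NormedSpace ℝ X]

/-- A dyadic tree of weak-star compact sets with separated branches contradicts the Asplund
property. -/
lemma tree_contradiction (hX : IsAsplund X) {Nd : Type*} (root : Nd) (child : Bool → Nd → Nd)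
    (V : Nd → Set (WeakDual ℝ X)) (hV : ∀ a, IsClosed (V a)) (hne : ∀ a, (V a).Nonempty)
    (hcomp : IsCompact (V root)) (hsub : ∀ b a, V (child b a) ⊆ V a) (w : Nd → X)
    (hw : ∀ a, ‖w a‖ ≤ 1) {ε : ℝ} (hε : 0 < ε)
    (hsep : ∀ a, ∀ f ∈ V (child true a), ∀ g ∈ V (child false a), ε ≤ f (w a) - g (w a)) :
    False := by
  let B : List Bool → Nd := fun l => l.rec root (fun b _ U => child b U)
  let path : (ℕ → Bool) → ℕ → List Bool := fun σ n => n.rec [] (fun n l => σ n :: l)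
  have hpath : ∀ σ n, path σ (n + 1) = σ n :: path σ n := fun σ n => rfl
  have hB : ∀ b l, B (b :: l) = child b (B l) := fun b l => rfl
  have hK : ∀ σ : ℕ → Bool, (⋂ n, V (B (path σ n))).Nonempty := by
    intro σ
    refine IsCompact.nonempty_iInter_of_sequence_nonempty_isCompact_isClosed _ ?_ ?_ ?_ ?_
    · intro n
      rw [hpath, hB]
      exact hsub _ _
    · exact fun n => hne _
    · exact hcomp
    · exact fun n => hV _
  choose F hF using hK
  have hF' : ∀ σ n, F σ ∈ V (child (σ n) (B (path σ n))) := fun σ n => mem_iInter.mp (hF σ) (n + 1)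
  have hunc : Uncountable (ℕ → Bool) := by
    rw [← Cardinal.aleph0_lt_mk_iff]
    simpa using Cardinal.aleph0_lt_continuum
  refine no_uncountable_separated hX (range fun l : List Bool => w (B l))
    (countable_range _) (ι := ℕ → Bool) (fun σ => WeakDual.toStrongDual (F σ)) hε ?_
  intro σ τ hστ
  have hex : ∃ n, σ n ≠ τ n := Function.ne_iff.mp hστ
  set n := Nat.find hex with hn
  have hn1 : σ n ≠ τ n := Nat.find_spec hex
  have hn2 : ∀ m, m < n → σ m = τ m := fun m hm => not_not.mp (Nat.find_min hex hm)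
  have hpeq : ∀ m, m ≤ n → path σ m = path τ m := by
    intro m
    induction m with
    | zero => intro _; rfl
    | succ m ih =>
      intro hm
      rw [hpath, hpath, ih (by omega), hn2 m (by omega)]
  have hpn := hpeq n le_rfl
  refine ⟨w (B (path σ n)), ⟨_, rfl⟩, hw _, ?_⟩
  simp only [WeakDual.toStrongDual_apply]
  have h1 := hF' σ n
  have h2 := hF' τ n
  rw [← hpn] at h2
  cases hσ : σ n with
  | true =>
    have hτ : τ n = false := by
      cases h : τ n with
      | true => exact absurd (hσ.trans h.symm) hn1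
      | false => rfl
    rw [hσ] at h1
    rw [hτ] at h2
    exact (hsep _ _ h1 _ h2).trans (le_abs_self _)
  | false =>
    have hτ : τ n = true := by
      cases h : τ n with
      | false => exact absurd (hσ.trans h.symm) hn1
      | true => rfl
    rw [hσ] at h1
    rw [hτ] at h2
    have := hsep _ _ h2 _ h1
    rw [abs_sub_comm]
    exact this.trans (le_abs_self _)

lemma EquivNorm.zero {N : X → ℝ} (hN : EquivNorm N) : N 0 = 0 := by
  have := hN.2.1 0 0
  simpa using this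

lemma EquivNorm.neg {N : X → ℝ} (hN : EquivNorm N) (x : X) : N (-x) = N x := by
  have := hN.2.1 (-1) x
  simpa using this

lemma EquivNorm.nonneg {N : X → ℝ} (hN : EquivNorm N) (x : X) : 0 ≤ N x := by
  obtain ⟨_, _, c, C, hc, _, h⟩ := hN
  exact (mul_nonneg hc.le (norm_nonneg x)).trans (h x).1

/-- a norming functional for an equivalent norm -/
lemma EquivNorm.exists_norming {N : X → ℝ} (hN : EquivNorm N) (z : X) :
    ∃ g : X →L[ℝ] ℝ, (∀ w, g w ≤ N w) ∧ g z = N z := by
  obtain ⟨hadd, hsmul, c, C, hc, hC, hcC⟩ := id hN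
  rcases eq_or_ne z 0 with rfl | hz
  · exact ⟨0, fun w => by simpa using hN.nonneg w, by simp [hN.zero]⟩
  · obtain ⟨g, hg1, hg2⟩ := exists_extension_of_le_sublinear
      (LinearPMap.mkSpanSingleton z (N z) hz) N
      (fun a ha x => by rw [hsmul, abs_of_pos ha]) hadd (by
        rintro ⟨x, hx⟩
        obtain ⟨a, rfl⟩ := Submodule.mem_span_singleton.mp hx
        have h1 : (LinearPMap.mkSpanSingleton z (N z) hz) ⟨a • z, hx⟩ = a • N z :=
          LinearPMap.mkSpanSingleton'_apply _ _ _ _ _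
        rw [h1]
        simp only [smul_eq_mul]
        rw [hsmul]
        exact mul_le_mul_of_nonneg_right (le_abs_self a) (hN.nonneg z))
    have hbound : ∀ w, ‖g w‖ ≤ C * ‖w‖ := by
      intro w
      rw [Real.norm_eq_abs, abs_le]
      constructor
      · have := (hg2 (-w)).trans (hcC (-w)).2
        rw [map_neg, norm_neg] at this
        linarith
      · exact (hg2 w).trans (hcC w).2
    refine ⟨g.mkContinuous C hbound, fun w => hg2 w, ?_⟩
    have hzmem : z ∈ Submodule.span ℝ {z} := Submodule.mem_span_singleton_self z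
    have := hg1 ⟨z, by simp⟩
    exact this.trans (LinearPMap.mkSpanSingleton'_apply_self _ _ _ _)

/-- The dual unit ball of an equivalent norm has slices of small diameter, for a dense set of
directions. -/
lemma exists_slice (hX : IsAsplund X) {N : X → ℝ} (hN : EquivNorm N) (x₀ : X) {r : ℝ}
    (hr : 0 < r) {η : ℝ} (hη : 0 < η) :
    ∃ z, ‖z - x₀‖ < r ∧ ∃ δ > 0, ∀ g g' : X →L[ℝ] ℝ, (∀ w, g w ≤ N w) → (∀ w, g' w ≤ N w) →
      N z - δ < g z → N z - δ < g' z → ‖g - g'‖ ≤ η := by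
  by_contra H
  push Not at H
  obtain ⟨hadd, hsmul, c, C, hc, hC, hcC⟩ := id hN
  have hle : ∀ w, N w ≤ C * ‖w‖ := fun w => (hcC w).2
  let Nd : Type u := {p : X × ℝ // 0 < p.2 ∧ ‖p.1 - x₀‖ + p.2 < r}
  have H' : ∀ a : Nd, ∃ q : (X →L[ℝ] ℝ) × (X →L[ℝ] ℝ) × X,
      (∀ w, q.1 w ≤ N w) ∧ (∀ w, q.2.1 w ≤ N w) ∧ N a.1.1 - a.1.2 / 4 * η / 8 < q.1 a.1.1 ∧
      N a.1.1 - a.1.2 / 4 * η / 8 < q.2.1 a.1.1 ∧ ‖q.2.2‖ ≤ 1 ∧
      η < q.1 q.2.2 - q.2.1 q.2.2 := by
    rintro ⟨⟨z, ρ⟩, hρ, hz⟩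
    simp only at hρ hz
    obtain ⟨g, g', hg, hg', h1, h2, h3⟩ := H z (by linarith) (ρ / 4 * η / 8) (by positivity)
    obtain ⟨w, hw1, hw⟩ := ContinuousLinearMap.exists_lt_apply_of_lt_opNorm _ h3
    rw [Real.norm_eq_abs] at hw
    have hw' : η < |g w - g' w| := hw
    rcases lt_abs.mp hw' with h | h
    · exact ⟨(g, g', w), hg, hg', h1, h2, hw1.le, h⟩
    · exact ⟨(g', g, w), hg', hg, h2, h1, hw1.le, by simpa using h⟩
  choose q hq1 hq2 hq3 hq4 hq5 hq6 using H'
  let ρ' : Nd → ℝ := fun a => min (a.1.2 / 4) (a.1.2 / 4 * η / (8 * (2 * C + 1)))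
  have hρ'pos : ∀ a : Nd, 0 < ρ' a := by
    intro a
    have := a.2.1
    exact lt_min (by positivity) (by positivity)
  have hρ'1 : ∀ a : Nd, ρ' a ≤ a.1.2 / 4 := fun a => min_le_left _ _
  have hρ'2 : ∀ a : Nd, (2 * C + 1) * ρ' a ≤ a.1.2 / 4 * η / 8 := by
    intro a
    have h1 : ρ' a ≤ a.1.2 / 4 * η / (8 * (2 * C + 1)) := min_le_right _ _
    have h2 : (2 * C + 1) * (a.1.2 / 4 * η / (8 * (2 * C + 1))) = a.1.2 / 4 * η / 8 := by
      field_simp
    rw [← h2]
    exact mul_le_mul_of_nonneg_left h1 (by positivity)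
  have hstep : ∀ (a : Nd) (s : ℝ), |s| ≤ 1 → ‖(s * (a.1.2 / 4)) • (q a).2.2‖ ≤ a.1.2 / 4 := by
    intro a s hs
    have ha := a.2.1
    rw [norm_smul, Real.norm_eq_abs, abs_mul, abs_of_pos (by positivity : 0 < a.1.2 / 4)]
    have := hq5 a
    calc |s| * (a.1.2 / 4) * ‖(q a).2.2‖ ≤ 1 * (a.1.2 / 4) * 1 := by gcongr
      _ = a.1.2 / 4 := by ring
  let sgn : Bool → ℝ := fun b => if b then 1 else -1
  have hsgn : ∀ b, |sgn b| ≤ 1 := by
    intro b; cases b <;> simp [sgn]
  let child : Bool → Nd → Nd := fun b a =>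
    ⟨(a.1.1 + (sgn b * (a.1.2 / 4)) • (q a).2.2, ρ' a), hρ'pos a, by
      have h1 := hstep a (sgn b) (hsgn b)
      have h2 := hρ'1 a
      have h3 := a.2.1
      have h4 := a.2.2
      have h5 : ‖a.1.1 + (sgn b * (a.1.2 / 4)) • (q a).2.2 - x₀‖
          ≤ ‖a.1.1 - x₀‖ + ‖(sgn b * (a.1.2 / 4)) • (q a).2.2‖ := by
        rw [add_sub_right_comm]
        exact norm_add_le _ _
      simp only
      linarith⟩
  let V : Nd → Set (WeakDual ℝ X) := fun a =>
    {g | (∀ w, g w ≤ N w) ∧ N a.1.1 - (2 * C + 1) * a.1.2 ≤ g a.1.1}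
  have hVmem : ∀ (a : Nd) (g : WeakDual ℝ X), g ∈ V a ↔
      (∀ w, g w ≤ N w) ∧ N a.1.1 - (2 * C + 1) * a.1.2 ≤ g a.1.1 := fun a g => Iff.rfl
  have hVclosed : ∀ a, IsClosed (V a) := by
    intro a
    have : V a = (⋂ w, {g : WeakDual ℝ X | g w ≤ N w}) ∩
        {g : WeakDual ℝ X | N a.1.1 - (2 * C + 1) * a.1.2 ≤ g a.1.1} := by
      ext g
      rw [hVmem, mem_inter_iff, mem_iInter]
      rfl
    rw [this]
    exact (isClosed_iInter fun w => isClosed_le (WeakDual.eval_continuous w)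
      continuous_const).inter (isClosed_le continuous_const (WeakDual.eval_continuous _))
  have hroot : ‖x₀ - x₀‖ + r / 2 < r := by simp; linarith
  refine tree_contradiction hX (Nd := Nd) ⟨(x₀, r / 2), by simp only; linarith, hroot⟩ child V
    hVclosed ?_ ?_ ?_ (fun a => (q a).2.2) hq5 (ε := η / 2) (by positivity) ?_
  · intro a
    obtain ⟨g, hg1, hg2⟩ := hN.exists_norming a.1.1
    refine ⟨StrongDual.toWeakDual g, hg1, ?_⟩
    have h2 := a.2.1
    have h3 : 0 ≤ (2 * C + 1) * a.1.2 := by positivity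
    rw [StrongDual.toWeakDual_apply, hg2]
    linarith
  · refine (WeakDual.isCompact_closedBall (0 : StrongDual ℝ X) C).of_isClosed_subset
      (hVclosed _) ?_
    intro g hg
    rw [hVmem] at hg
    rw [mem_preimage, mem_closedBall_zero_iff]
    refine ContinuousLinearMap.opNorm_le_bound _ hC.le fun w => ?_
    rw [Real.norm_eq_abs, abs_le]
    constructor
    · have := (hg.1 (-w)).trans (hle (-w))
      rw [map_neg, norm_neg] at this
      simp only [WeakDual.toStrongDual_apply]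
      linarith
    · exact (hg.1 w).trans (hle w)
  · intro b a g hg
    rw [hVmem] at hg ⊢
    refine ⟨hg.1, ?_⟩
    have h1 := hg.2
    have h2 : (child b a).1.2 = ρ' a := rfl
    set v : X := (sgn b * (a.1.2 / 4)) • (q a).2.2 with hv
    have h3 : (child b a).1.1 = a.1.1 + v := rfl
    rw [h2, h3, map_add] at h1
    have h4 : ‖v‖ ≤ a.1.2 / 4 := hstep a (sgn b) (hsgn b)
    have h5 : g v ≤ C * ‖v‖ := (hg.1 v).trans (hle v)
    have h6 : N a.1.1 ≤ N (a.1.1 + v) + C * ‖v‖ := by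
      have := hadd (a.1.1 + v) (-v)
      rw [add_neg_cancel_right, hN.neg] at this
      exact this.trans (by linarith [hle v])
    have h7 := hρ'1 a
    have h8 := a.2.1
    have h9 : (2 * C + 1) * ρ' a ≤ (2 * C + 1) * (a.1.2 / 4) :=
      mul_le_mul_of_nonneg_left h7 (by positivity)
    have h10 : C * ‖v‖ ≤ C * (a.1.2 / 4) := mul_le_mul_of_nonneg_left h4 hC.le
    nlinarith
  · intro a f hf g hg
    rw [hVmem] at hf hg
    have ha := a.2.1
    set t : ℝ := a.1.2 / 4 with ht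
    have htpos : 0 < t := by positivity
    have hf2 := hf.2
    have hg2 := hg.2
    have e1 : (child true a).1.1 = a.1.1 + (1 * t) • (q a).2.2 := rfl
    have e2 : (child false a).1.1 = a.1.1 + (-1 * t) • (q a).2.2 := rfl
    have e3 : (child true a).1.2 = ρ' a := rfl
    have e4 : (child false a).1.2 = ρ' a := rfl
    have hρ := hρ'2 a
    rw [e1, e3, map_add, map_smul, smul_eq_mul] at hf2
    rw [e2, e4, map_add, map_smul, smul_eq_mul] at hg2
    have k1 := hq1 a (a.1.1 + (1 * t) • (q a).2.2)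
    have k2 := hq2 a (a.1.1 + (-1 * t) • (q a).2.2)
    rw [map_add, map_smul, smul_eq_mul] at k1 k2
    have k3 := hq3 a
    have k4 := hq4 a
    have k5 := hf.1 a.1.1
    have k6 := hg.1 a.1.1
    have k7 := hq6 a
    have main : t * (η / 2) ≤ t * (f (q a).2.2 - g (q a).2.2) := by
      have k8 : t * η < t * ((q a).1 (q a).2.2 - (q a).2.1 (q a).2.2) :=
        mul_lt_mul_of_pos_left k7 htpos
      nlinarith
    exact le_of_mul_le_mul_left main htpos

/-- a dense set of the dual gives a dense set of the space -/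
lemma exists_dense_of_dual {E : Set (X →L[ℝ] ℝ)} (hE : Dense E) :
    ∃ D : Set X, Dense D ∧ #D ≤ max #E ℵ₀ := by
  have hx : ∀ e : X →L[ℝ] ℝ, ∃ x : X, ‖x‖ ≤ 1 ∧ ‖e‖ / 2 ≤ e x := by
    intro e
    rcases eq_or_ne e 0 with rfl | he
    · exact ⟨0, by simp, by simp⟩
    · have h1 : ‖e‖ / 2 < ‖e‖ := half_lt_self (norm_pos_iff.mpr he)
      obtain ⟨x, hx1, hx⟩ := ContinuousLinearMap.exists_lt_apply_of_lt_opNorm e h1
      rw [Real.norm_eq_abs] at hx
      rcases lt_abs.mp hx with h | h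
      · exact ⟨x, hx1.le, h.le⟩
      · exact ⟨-x, by rw [norm_neg]; exact hx1.le, by rw [map_neg]; exact h.le⟩
  choose x hx1 hx2 using hx
  obtain ⟨D, hD1, hD2⟩ := exists_dense_span (x '' E)
  refine ⟨D, ?_, hD1.trans (max_le_max mk_image_le le_rfl)⟩
  -- otherwise a functional vanishes on the span
  by_contra hno
  have hcl : (Submodule.span ℝ (x '' E)).topologicalClosure ≠ ⊤ := by
    intro h
    apply hno
    intro y
    have hy : y ∈ (Submodule.span ℝ (x '' E)).topologicalClosure := by rw [h]; trivial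
    have hy' : y ∈ closure (Submodule.span ℝ (x '' E) : Set X) := hy
    have := closure_mono hD2 hy'
    rwa [closure_closure] at this
  obtain ⟨g, hg0, hg⟩ : ∃ g : X →L[ℝ] ℝ, g ≠ 0 ∧ ∀ z ∈ Submodule.span ℝ (x '' E), g z = 0 := by
    set S := (Submodule.span ℝ (x '' E)).topologicalClosure with hS
    have hSc : IsClosed (S : Set X) := Submodule.isClosed_topologicalClosure _
    obtain ⟨y, hy⟩ : ∃ y, y ∉ S := by
      by_contra hall
      push Not at hall
      exact hcl (eq_top_iff.mpr fun y _ => hall y)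
    have hd : 0 < Metric.infDist y S := by
      rw [← hSc.notMem_iff_infDist_pos ⟨0, S.zero_mem⟩]
      exact hy
    obtain ⟨a, ha⟩ : ∃ a : ℝ, 1 / 2 ≤ a * Metric.infDist y S ∧ 0 < a :=
      ⟨(Metric.infDist y S)⁻¹, by rw [inv_mul_cancel₀ hd.ne']; norm_num, by positivity⟩
    obtain ⟨f, hf1, hf2, hf3⟩ := exists_sep_functional (S := S) (x := a • y) (by
      intro z hz
      have h1 : Metric.infDist y S ≤ dist y (a⁻¹ • z) :=
        Metric.infDist_le_dist_of_mem (S.smul_mem _ hz)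
      have h2 : ‖a • y - z‖ = a * dist y (a⁻¹ • z) := by
        rw [dist_eq_norm]
        have : a • y - z = a • (y - a⁻¹ • z) := by
          rw [smul_sub, smul_smul, mul_inv_cancel₀ ha.2.ne', one_smul]
        rw [this, norm_smul, Real.norm_of_nonneg ha.2.le]
      rw [h2]
      exact ha.1.trans (mul_le_mul_of_nonneg_left h1 ha.2.le))
    refine ⟨f, ?_, fun z hz => hf3 z (Submodule.le_topologicalClosure _ hz)⟩
    rintro rfl
    simp at hf2
  have hgpos : 0 < ‖g‖ := norm_pos_iff.mpr hg0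
  obtain ⟨e, heE, hge⟩ := hE.exists_dist_lt g (ε := ‖g‖ / 4) (by positivity)
  rw [dist_eq_norm] at hge
  have h1 : g (x e) = 0 := hg _ (Submodule.subset_span ⟨e, heE, rfl⟩)
  have h2 := (g - e).le_opNorm (x e)
  have h3 : (g - e) (x e) = - e (x e) := by
    rw [sub_apply, h1, zero_sub]
  rw [h3, norm_neg, Real.norm_eq_abs] at h2
  have h4 : ‖g - e‖ * ‖x e‖ ≤ ‖g‖ / 4 := by
    calc ‖g - e‖ * ‖x e‖ ≤ ‖g - e‖ * 1 := mul_le_mul_of_nonneg_left (hx1 e) (norm_nonneg _)
      _ ≤ ‖g‖ / 4 := by rw [mul_one]; exact hge.le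
  have h5 := hx2 e
  have h6 := le_abs_self (e (x e))
  have h7 : ‖g‖ ≤ ‖g - e‖ + ‖e‖ := by simpa using norm_add_le (g - e) e
  linarith

/-- `X` has a bounded uniformly dominated system of size `κ`. -/
def HasSystem (X : Type u) [NormedAddCommGroup X] [NormedSpace ℝ X] (κ : Cardinal.{u}) : Prop :=
  ∃ (S : Set (X × (X →L[ℝ] ℝ))) (C δ : ℝ), κ ≤ #S ∧ 0 < δ ∧
    (∀ p ∈ S, ‖p.1‖ ≤ C ∧ ‖p.2‖ ≤ C ∧ p.2 p.1 = 1) ∧
    (∀ p ∈ S, ∀ q ∈ S, p ≠ q → |q.2 p.1| ≤ 1 - δ)

/-- **Necessity.** -/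
theorem hasSystem_of_norm (hX : IsAsplund X) {N : X → ℝ} (hN : EquivNorm N)
    (hNP : NoProperNorming N) {κ : Cardinal.{u}} (hκ : ℵ₀ < κ) (hreg : κ.IsRegular)
    (hdens : ∀ D : Set X, Dense D → κ ≤ #D) : HasSystem X κ := by
  classical
  obtain ⟨hadd, hsmul, c, C, hc, hC, hcC⟩ := id hN
  have hle : ∀ w, N w ≤ C * ‖w‖ := fun w => (hcC w).2
  set M : ℕ → Set X := fun n => {z | ∃ δ > 0, ∀ g g' : X →L[ℝ] ℝ, (∀ w, g w ≤ N w) →
    (∀ w, g' w ≤ N w) → N z - δ < g z → N z - δ < g' z → ‖g - g'‖ ≤ 1 / ((n : ℝ) + 1)} with hM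
  choose J hJ1 hJ2 using fun z : X => hN.exists_norming z
  -- a maximal separated subset of `J '' M n`
  have hA : ∀ n : ℕ, ∃ A ⊆ J '' M n,
      (∀ a ∈ A, ∀ b ∈ A, a ≠ b → 1 / ((n : ℝ) + 1) < ‖a - b‖ ∧ 1 / ((n : ℝ) + 1) < ‖a + b‖) ∧
      ∀ g ∈ J '' M n, ∃ a ∈ A, ‖g - a‖ ≤ 1 / ((n : ℝ) + 1) ∨ ‖g + a‖ ≤ 1 / ((n : ℝ) + 1) := by
    intro n
    set P : Set (Set (X →L[ℝ] ℝ)) := {A | A ⊆ J '' M n ∧
      ∀ a ∈ A, ∀ b ∈ A, a ≠ b → 1 / ((n : ℝ) + 1) < ‖a - b‖ ∧ 1 / ((n : ℝ) + 1) < ‖a + b‖}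
      with hP
    obtain ⟨A, hA⟩ : ∃ A, Maximal (· ∈ P) A := by
      refine zorn_subset P ?_
      intro ch hch hchain
      refine ⟨⋃₀ ch, ⟨?_, ?_⟩, fun s hs => subset_sUnion_of_mem hs⟩
      · exact sUnion_subset fun s hs => (hch hs).1
      · rintro p ⟨s, hs, hps⟩ q ⟨t, ht, hqt⟩ hpq
        rcases hchain.total hs ht with h | h
        · exact (hch ht).2 p (h hps) q hqt hpq
        · exact (hch hs).2 p hps q (h hqt) hpq
    refine ⟨A, hA.prop.1, hA.prop.2, ?_⟩
    intro g hg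
    by_contra hno
    push Not at hno
    have hgA : g ∉ A := by
      intro h
      have := (hno g h).1
      rw [sub_self, norm_zero] at this
      have h2 : (0 : ℝ) < 1 / ((n : ℝ) + 1) := by positivity
      linarith
    have hmem : insert g A ∈ P := by
      refine ⟨insert_subset hg hA.prop.1, ?_⟩
      rintro a (rfl | ha) b (rfl | hb) hab
      · exact absurd rfl hab
      · exact hno b hb
      · rw [norm_sub_rev, add_comm a b]
        exact hno a ha
      · exact hA.prop.2 a ha b hb hab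
    exact hgA (hA.le_of_ge hmem (subset_insert _ _) (mem_insert _ _))
  choose A hA1 hA2 hA3 using hA
  have hAN : ∀ n, ∀ a ∈ A n, ∀ w, |a w| ≤ N w := by
    intro n a ha w
    obtain ⟨z, _, rfl⟩ := hA1 n ha
    rw [abs_le]
    constructor
    · have := hJ1 z (-w)
      rw [map_neg, hN.neg] at this
      linarith
    · exact hJ1 z w
  -- the closed span of all of them is the dual
  set W : Submodule ℝ (X →L[ℝ] ℝ) := (Submodule.span ℝ (⋃ n, A n)).topologicalClosure with hW
  have hWtop : W = ⊤ := by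
    refine hNP W (Submodule.isClosed_topologicalClosure _) ?_
    intro x ε hε
    obtain ⟨n, hn⟩ := exists_nat_one_div_lt (show 0 < ε / (2 * (‖x‖ + 1)) by positivity)
    obtain ⟨z, hz, hzM⟩ := exists_slice hX hN x (r := ε / (4 * C)) (by positivity)
      (η := 1 / ((n : ℝ) + 1)) (by positivity)
    have hJz : N x - ε / 2 < J z x := by
      have h1 : J z (z - x) ≤ C * ‖z - x‖ := (hJ1 z _).trans (hle _)
      rw [map_sub, hJ2] at h1
      have h2 : N x ≤ N z + C * ‖z - x‖ := by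
        have := hadd z (x - z)
        rw [add_sub_cancel] at this
        have h3 := hle (x - z)
        rw [norm_sub_rev] at h3
        linarith
      have h3 : C * ‖z - x‖ < ε / 4 := by
        have h4 := mul_lt_mul_of_pos_left hz hC
        have h5 : C * (ε / (4 * C)) = ε / 4 := by field_simp
        linarith
      linarith
    have hclose : ∀ b : X →L[ℝ] ℝ, ‖J z - b‖ ≤ 1 / ((n : ℝ) + 1) → N x - ε < b x := by
      intro b hb
      have h1 := (J z - b).le_opNorm x
      rw [sub_apply, Real.norm_eq_abs] at h1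
      have h2 : ‖J z - b‖ * ‖x‖ ≤ ε / 2 := by
        have h3 : ‖J z - b‖ * ‖x‖ ≤ ε / (2 * (‖x‖ + 1)) * (‖x‖ + 1) :=
          mul_le_mul (hb.trans hn.le) (by linarith) (norm_nonneg _) (by positivity)
        have h4 : ε / (2 * (‖x‖ + 1)) * (‖x‖ + 1) = ε / 2 := by
          have : (‖x‖ + 1) ≠ 0 := by positivity
          field_simp
        linarith
      have h3 := le_abs_self (J z x - b x)
      linarith
    obtain ⟨a, haA, ha⟩ := hA3 n (J z) ⟨z, hzM, rfl⟩
    have haW : a ∈ W := Submodule.le_topologicalClosure _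
      (Submodule.subset_span (mem_iUnion.mpr ⟨n, haA⟩))
    rcases ha with ha | ha
    · exact ⟨a, haW, hAN n a haA, hclose a ha⟩
    · refine ⟨-a, W.neg_mem haW, fun w => by
        rw [neg_apply, abs_neg]; exact hAN n a haA w, hclose (-a) (by rwa [sub_neg_eq_add])⟩
  have hcard : κ ≤ #(⋃ n, A n : Set (X →L[ℝ] ℝ)) := by
    obtain ⟨E, hE1, hE2⟩ := exists_dense_span (⋃ n, A n)
    have hEd : Dense E := by
      intro g
      have hg : g ∈ W := by rw [hWtop]; trivial
      have hg' : g ∈ closure (Submodule.span ℝ (⋃ n, A n) : Set (X →L[ℝ] ℝ)) := hg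
      have := closure_mono hE2 hg'
      rwa [closure_closure] at this
    obtain ⟨D, hD, hDE⟩ := exists_dense_of_dual hEd
    have h1 := (hdens D hD).trans (hDE.trans (max_le_max hE1 le_rfl))
    rw [max_assoc, max_self] at h1
    rcases le_max_iff.mp h1 with h | h
    · exact h
    · exact absurd h (not_le.mpr hκ)
  have hcof : ∀ {β : Type u} (f : β → ULift.{u} ℕ), κ ≤ #β → ∃ n, κ ≤ #(f ⁻¹' {n}) := by
    intro β f hβ
    refine infinite_pigeonhole_card f κ hβ hκ.le ?_
    rw [hreg.cof_ord]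
    simpa using hκ
  -- one of the `A n` is large
  obtain ⟨n, hn⟩ : ∃ n, κ ≤ #(A n) := by
    choose m hm using fun a : (⋃ n, A n : Set (X →L[ℝ] ℝ)) => mem_iUnion.mp a.2
    obtain ⟨n, hn⟩ := hcof (fun a => ULift.up (m a)) hcard
    refine ⟨n.down, hn.trans ?_⟩
    refine mk_le_of_injective (f := fun a : (fun a => ULift.up (m a)) ⁻¹' {n} =>
      (⟨a.1.1, by
        have h1 : ULift.up (m a.1) = n := a.2
        have h2 : m a.1 = n.down := congrArg ULift.down h1
        rw [← h2]; exact hm a.1⟩ : A n.down)) ?_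
    intro a b hab
    apply Subtype.ext
    apply Subtype.ext
    exact congrArg (fun x => x.1) hab
  -- points and slices
  have hz : ∀ a : A n, ∃ z : X, J z = a ∧ ∃ δ > 0, ∀ b ∈ A n, b ≠ a → |b z| ≤ N z - δ := by
    intro a
    obtain ⟨z, ⟨δ, hδ, hs⟩, hza⟩ := hA1 n a.2
    refine ⟨z, hza, δ, hδ, fun b hb hba => ?_⟩
    have hab := hA2 n a a.2 b hb (fun h => hba h.symm)
    have hJz : N z - δ < J z z := by rw [hJ2]; linarith
    rw [abs_le]
    constructor
    · by_contra hlt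
      push Not at hlt
      have h1 := hs (J z) (-b) (hJ1 z) (fun w => (neg_le_abs _).trans (hAN n b hb w)) hJz
        (by rw [neg_apply]; linarith)
      rw [hza, sub_neg_eq_add] at h1
      linarith [hab.2]
    · by_contra hlt
      push Not at hlt
      have h1 := hs (J z) b (hJ1 z) (fun w => (le_abs_self _).trans (hAN n b hb w)) hJz hlt
      rw [hza] at h1
      linarith [hab.1]
  choose z hza δ hδ hzδ using hz
  have hAinf : Infinite (A n) := by
    rw [← aleph0_le_mk_iff]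
    exact hκ.le.trans hn
  have hNz : ∀ a : A n, 0 < N (z a) := by
    intro a
    obtain ⟨b, hb⟩ := exists_ne a
    have h1 := hzδ a b b.2 (fun h => hb (Subtype.ext h))
    have h2 := abs_nonneg ((b : X →L[ℝ] ℝ) (z a))
    linarith [hδ a]
  -- uniformise the domination
  choose m hm using fun a : A n => exists_nat_one_div_lt (div_pos (hδ a) (hNz a))
  obtain ⟨k, hk⟩ := hcof (fun a : A n => ULift.up (m a)) hn
  set S : Set (X × (X →L[ℝ] ℝ)) :=
    (fun a : A n => ((N (z a))⁻¹ • z a, (a : X →L[ℝ] ℝ))) ''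
      ((fun a : A n => ULift.up (m a)) ⁻¹' {k}) with hS
  refine ⟨S, max (1 / c) C, 1 / ((k.down : ℝ) + 1), ?_, by positivity, ?_, ?_⟩
  · rw [hS, mk_image_eq]
    · exact hk
    · intro a b hab
      exact Subtype.ext (Prod.ext_iff.mp hab).2
  · rintro _ ⟨a, ha, rfl⟩
    refine ⟨?_, ?_, ?_⟩
    · refine le_trans ?_ (le_max_left _ _)
      rw [norm_smul, norm_inv, Real.norm_of_nonneg (hNz a).le]
      rw [inv_mul_le_iff₀ (hNz a), mul_one_div, le_div_iff₀ hc]
      rw [mul_comm]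
      exact (hcC (z a)).1
    · refine le_trans ?_ (le_max_right _ _)
      refine ContinuousLinearMap.opNorm_le_bound _ hC.le fun w => ?_
      exact (hAN n a a.2 w).trans (hle w)
    · simp only [map_smul, smul_eq_mul]
      rw [← hza a, hJ2]
      exact inv_mul_cancel₀ (hNz a).ne'
  · rintro _ ⟨a, ha, rfl⟩ _ ⟨b, hb, rfl⟩ hab
    have hne : (b : X →L[ℝ] ℝ) ≠ a := by
      intro h
      apply hab
      have : a = b := Subtype.ext h.symm
      rw [this]
    have h1 := hzδ a b b.2 hne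
    simp only [map_smul, smul_eq_mul]
    rw [abs_mul, abs_of_pos (inv_pos.mpr (hNz a))]
    have h2 : m a = k.down := by
      have : ULift.up (m a) = k := ha
      exact congrArg ULift.down this
    have h3 := hm a
    rw [h2] at h3
    have h4 : (N (z a))⁻¹ * |(b : X →L[ℝ] ℝ) (z a)| ≤ (N (z a))⁻¹ * (N (z a) - δ a) :=
      mul_le_mul_of_nonneg_left h1 (inv_pos.mpr (hNz a)).le
    have h5 : (N (z a))⁻¹ * (N (z a) - δ a) = 1 - δ a / N (z a) := by
      have := (hNz a).ne'
      field_simp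
    linarith

end Pool.Agent.LibH11.Renorm
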